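import Pool.Agent.HG.Nielsen

/-!
# Bundle groups: universal property, isomorphisms, matrices (project HG)
-/

namespace HG

open SemidirectProduct

variable {H : Type*} [Group H]

/-- the stable letter -/
def bT (φ : MulAut F2) : Bundle φ := inr (Multiplicative.ofAdd 1)

theorem bT_conj (φ : MulAut F2) (w : F2) :
    bT φ * inl w * (bT φ)⁻¹ = (inl (φ w) : Bundle φ) := by
  have h := SemidirectProduct.inl_aut (φ := zpowersHom (MulAut F2) φ) (Multiplicative.ofAdd 1) w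
  rw [zpowersHom_apply] at h
  simp only [toAdd_ofAdd, zpow_one, map_inv] at h
  exact h.symm

theorem conj_zpow_hom {φ : MulAut F2} {f : F2 →* H} {t : H}
    (h : ∀ w, t * f w * t⁻¹ = f (φ w)) (n : ℤ) :
    ∀ w, f ((φ ^ n) w) = t ^ n * f w * (t ^ n)⁻¹ := by
  have hinv : ∀ w, f (φ⁻¹ w) = t⁻¹ * f w * t := by
    intro w
    have h1 := h (φ⁻¹ w)
    have h2 : φ (φ⁻¹ w) = w := by
      rw [← MulAut.mul_apply, mul_inv_cancel, MulAut.one_apply]
    rw [h2] at h1
    rw [← h1]; group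
  induction n using Int.induction_on with
  | zero => intro w; simp
  | succ n ih =>
    intro w
    rw [zpow_add_one, MulAut.mul_apply, ih, ← h w, zpow_add_one]
    group
  | pred n ih =>
    intro w
    rw [zpow_sub_one, MulAut.mul_apply, ih, hinv, zpow_sub_one]
    group

/-- universal property of the bundle group -/
theorem bundle_lift (φ : MulAut F2) (f : F2 →* H) (t : H)
    (h : ∀ w, t * f w * t⁻¹ = f (φ w)) :
    ∃ F : Bundle φ →* H, (∀ w, F (inl w) = f w) ∧ F (bT φ) = t := by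
  have h' : ∀ g : Multiplicative ℤ,
      f.comp ((zpowersHom (MulAut F2) φ) g).toMonoidHom =
        (MulAut.conj ((zpowersHom H t) g)).toMonoidHom.comp f := by
    intro g
    ext w
    have := conj_zpow_hom h (Multiplicative.toAdd g) (FreeGroup.of w)
    have e : (MulAut.conj t ^ (Multiplicative.toAdd g) : MulAut H) =
        MulAut.conj (t ^ (Multiplicative.toAdd g)) := (map_zpow _ _ _).symm
    simp only [MonoidHom.comp_apply, MulEquiv.toMonoidHom_eq_coe, MonoidHom.coe_coe,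
      zpowersHom_apply, MulAut.conj_apply]
    exact this
  refine ⟨SemidirectProduct.lift f (zpowersHom H t) h', fun w => ?_, ?_⟩
  · simp
  · rw [bT, SemidirectProduct.lift_inr, zpowersHom_apply]
    simp

/-- extensionality for homomorphisms from a bundle group -/
theorem bundle_ext {φ : MulAut F2} {F K : Bundle φ →* H}
    (hx : F (inl gx) = K (inl gx)) (hy : F (inl gy) = K (inl gy)) (ht : F (bT φ) = K (bT φ)) :
    F = K := by
  apply SemidirectProduct.hom_ext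
  · exact hom_ext2 hx hy
  · apply MonoidHom.ext_mint
    exact ht

/-- semiconjugate monodromies have isomorphic bundle groups -/
theorem bundle_iso {φ φ' : MulAut F2} (ψ : MulAut F2) (g : F2)
    (h : ∀ w, ψ (φ w) = g * φ' (ψ w) * g⁻¹) : Nonempty (Bundle φ ≃* Bundle φ') := by
  obtain ⟨F, hF1, hF2⟩ := bundle_lift φ ((inl : F2 →* Bundle φ').comp ψ.toMonoidHom)
    (inl g * bT φ') (by
      intro w
      have h1 : (inl g * bT φ') * ((inl : F2 →* Bundle φ').comp ψ.toMonoidHom) w *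
          (inl g * bT φ')⁻¹ = inl g * (bT φ' * inl (ψ w) * (bT φ')⁻¹) * (inl g)⁻¹ := by
        simp only [MonoidHom.comp_apply, MulEquiv.toMonoidHom_eq_coe, MonoidHom.coe_coe]
        group
      rw [h1, bT_conj, ← map_inv, ← map_mul, ← map_mul, ← h w]
      rfl)
  have hinv : ∀ w, ψ (ψ⁻¹ w) = w := by
    intro w; rw [← MulAut.mul_apply, mul_inv_cancel, MulAut.one_apply]
  have hinv' : ∀ w, ψ⁻¹ (ψ w) = w := by
    intro w; rw [← MulAut.mul_apply, inv_mul_cancel, MulAut.one_apply]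
  obtain ⟨K, hK1, hK2⟩ := bundle_lift φ' ((inl : F2 →* Bundle φ).comp (ψ⁻¹).toMonoidHom)
    (inl (ψ⁻¹ g)⁻¹ * bT φ) (by
      intro w
      have h1 : (inl (ψ⁻¹ g)⁻¹ * bT φ) * ((inl : F2 →* Bundle φ).comp (ψ⁻¹).toMonoidHom) w *
          (inl (ψ⁻¹ g)⁻¹ * bT φ)⁻¹
          = inl (ψ⁻¹ g)⁻¹ * (bT φ * inl (ψ⁻¹ w) * (bT φ)⁻¹) * (inl (ψ⁻¹ g)⁻¹)⁻¹ := by
        simp only [MonoidHom.comp_apply, MulEquiv.toMonoidHom_eq_coe, MonoidHom.coe_coe]
        group
      have h4 : (inl (ψ⁻¹ g)⁻¹ * inl (φ (ψ⁻¹ w)) * (inl (ψ⁻¹ g)⁻¹)⁻¹ : Bundle φ) =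
          inl ((ψ⁻¹ g)⁻¹ * φ (ψ⁻¹ w) * ((ψ⁻¹ g)⁻¹)⁻¹) := by
        simp only [map_mul, map_inv]
      rw [h1, bT_conj, h4]
      have h2 : (ψ⁻¹ g)⁻¹ * φ (ψ⁻¹ w) * ((ψ⁻¹ g)⁻¹)⁻¹ = ψ⁻¹ (φ' w) := by
        have h3 : ψ⁻¹ (ψ (φ (ψ⁻¹ w))) = ψ⁻¹ (g * φ' (ψ (ψ⁻¹ w)) * g⁻¹) := by rw [h]
        rw [hinv', hinv, map_mul, map_mul, map_inv] at h3
        rw [h3]; group
      rw [h2]
      rfl)
  have hF1' : ∀ w, F (inl w) = inl (ψ w) := fun w => hF1 w
  have hK1' : ∀ w, K (inl w) = inl (ψ⁻¹ w) := fun w => hK1 w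
  refine ⟨MonoidHom.toMulEquiv F K ?_ ?_⟩
  · apply bundle_ext
    · rw [MonoidHom.comp_apply, hF1', hK1', hinv']; rfl
    · rw [MonoidHom.comp_apply, hF1', hK1', hinv']; rfl
    · rw [MonoidHom.comp_apply, hF2, map_mul, hK1', hK2, ← mul_assoc, ← map_mul,
        mul_inv_cancel, map_one, one_mul]; rfl
  · apply bundle_ext
    · rw [MonoidHom.comp_apply, hK1', hF1', hinv]; rfl
    · rw [MonoidHom.comp_apply, hK1', hF1', hinv]; rfl
    · rw [MonoidHom.comp_apply, hK2, map_mul, hF1', hF2, ← mul_assoc, ← map_mul,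
        map_inv, hinv, inv_mul_cancel, map_one, one_mul]; rfl

/-- inverse monodromies have isomorphic bundle groups -/
theorem bundle_inv (φ : MulAut F2) : Nonempty (Bundle φ ≃* Bundle φ⁻¹) := by
  have key : ∀ ψ : MulAut F2, ∀ w, (bT ψ⁻¹)⁻¹ * inl w * ((bT ψ⁻¹)⁻¹)⁻¹ = (inl (ψ w) : Bundle ψ⁻¹) := by
    intro ψ w
    have h1 := bT_conj ψ⁻¹ (ψ w)
    have h2 : ψ⁻¹ (ψ w) = w := by rw [← MulAut.mul_apply, inv_mul_cancel, MulAut.one_apply]
    rw [h2] at h1
    rw [← h1]; group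
  have key' : ∀ ψ : MulAut F2, ∀ w, (bT ψ)⁻¹ * inl w * ((bT ψ)⁻¹)⁻¹ = (inl (ψ⁻¹ w) : Bundle ψ) := by
    intro ψ w
    have h1 := bT_conj ψ (ψ⁻¹ w)
    have h2 : ψ (ψ⁻¹ w) = w := by rw [← MulAut.mul_apply, mul_inv_cancel, MulAut.one_apply]
    rw [h2] at h1
    rw [← h1]; group
  obtain ⟨F, hF1, hF2⟩ := bundle_lift φ (inl : F2 →* Bundle φ⁻¹) (bT φ⁻¹)⁻¹ (key φ)
  obtain ⟨K, hK1, hK2⟩ := bundle_lift φ⁻¹ (inl : F2 →* Bundle φ) (bT φ)⁻¹ (key' φ)
  refine ⟨MonoidHom.toMulEquiv F K ?_ ?_⟩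
  · apply bundle_ext
    · rw [MonoidHom.comp_apply, hF1, hK1]; rfl
    · rw [MonoidHom.comp_apply, hF1, hK1]; rfl
    · rw [MonoidHom.comp_apply, hF2, map_inv, hK2, inv_inv]; rfl
  · apply bundle_ext
    · rw [MonoidHom.comp_apply, hK1, hF1]; rfl
    · rw [MonoidHom.comp_apply, hK1, hF1]; rfl
    · rw [MonoidHom.comp_apply, hK2, map_inv, hF2, inv_inv]; rfl

/-! ### matrices -/

theorem es_apply (φ : MulAut F2) (i : Fin 2) (w : F2) :
    es i (φ w) = es i (φ gx) * es 0 w + es i (φ gy) * es 1 w := by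
  have h : (esum i).comp φ.toMonoidHom =
      (esum 0) ^ (es i (φ gx)) * (esum 1) ^ (es i (φ gy)) := by
    apply hom_ext2
    · apply Multiplicative.toAdd.injective
      simp [es, esum, gx]
    · apply Multiplicative.toAdd.injective
      simp [es, esum, gy]
  have h2 := DFunLike.congr_fun h w
  simp only [MonoidHom.comp_apply, MulEquiv.toMonoidHom_eq_coe, MonoidHom.coe_coe,
    MonoidHom.mul_apply] at h2
  have h3 := congrArg Multiplicative.toAdd h2
  simpa [es] using h3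

theorem mat_mul (φ ψ : MulAut F2) : mat (φ * ψ) = mat φ * mat ψ := by
  have h : ∀ (i : Fin 2) (w : F2), (esum i w).toAdd = es i w := fun _ _ => rfl
  simp only [mat, h, MulAut.mul_apply]
  rw [es_apply φ 0 (ψ gx), es_apply φ 0 (ψ gy), es_apply φ 1 (ψ gx), es_apply φ 1 (ψ gy)]
  rw [Matrix.mul_fin_two]

theorem mat_one : mat 1 = 1 := by
  have h : ∀ (i : Fin 2) (w : F2), (esum i w).toAdd = es i w := fun _ _ => rfl
  simp only [mat, h, MulAut.one_apply, es_0x, es_0y, es_1x, es_1y]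
  exact (Matrix.one_fin_two).symm

theorem mat_tauA : mat tauA = !![1, 1; 0, 1] := by
  have h : ∀ (i : Fin 2) (w : F2), (esum i w).toAdd = es i w := fun _ _ => rfl
  simp only [mat, h, tauA_x, tauA_y, es_mul, es_0x, es_0y, es_1x, es_1y]
  norm_num

theorem mat_tauB : mat tauB = !![1, 0; 1, 1] := by
  have h : ∀ (i : Fin 2) (w : F2), (esum i w).toAdd = es i w := fun _ _ => rfl
  simp only [mat, h, tauB_x, tauB_y, es_mul, es_0x, es_0y, es_1x, es_1y]
  norm_num

theorem mat_inv_mul (φ : MulAut F2) : mat φ⁻¹ * mat φ = 1 := by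
  rw [← mat_mul, inv_mul_cancel, mat_one]

theorem det_mat {φ : MulAut F2} (h : φ ∈ Mon) : (mat φ).det = 1 := by
  induction h using Subgroup.closure_induction with
  | mem x hx =>
    rcases hx with rfl | hx
    · rw [mat_tauA, Matrix.det_fin_two_of]; norm_num
    · rw [Set.mem_singleton_iff] at hx
      subst hx
      rw [mat_tauB, Matrix.det_fin_two_of]; norm_num
  | one => rw [mat_one, Matrix.det_one]
  | mul x y _ _ hx hy => rw [mat_mul, Matrix.det_mul, hx, hy, one_mul]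
  | inv x _ hx =>
    have h1 := congrArg Matrix.det (mat_inv_mul x)
    rw [Matrix.det_mul, hx, mul_one, Matrix.det_one] at h1
    exact h1

/-- `Mon` surjects onto the special linear group -/
theorem mat_surj (P : Matrix.SpecialLinearGroup (Fin 2) ℤ) :
    ∃ ψ ∈ Mon, mat ψ = (P : Matrix (Fin 2) (Fin 2) ℤ) := by
  have hA : tauA ∈ Mon := Subgroup.subset_closure (by simp)
  have hB : tauB ∈ Mon := Subgroup.subset_closure (by simp)
  have hP : P ∈ Subgroup.closure {ModularGroup.S, ModularGroup.T} := by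
    rw [_root_.SpecialLinearGroup.SL2Z_generators]; trivial
  induction hP using Subgroup.closure_induction with
  | mem x hx =>
    rcases hx with rfl | hx
    · refine ⟨tauB * tauA⁻¹ * tauB, Mon.mul_mem (Mon.mul_mem hB (Mon.inv_mem hA)) hB, ?_⟩
      have hi : mat tauA⁻¹ = !![1, -1; 0, 1] := by
        have h1 := mat_inv_mul tauA
        have h2 : (!![1, 1; 0, 1] : Matrix (Fin 2) (Fin 2) ℤ) * !![1, -1; 0, 1] = 1 := by
          rw [Matrix.mul_fin_two, Matrix.one_fin_two]; norm_num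
        calc mat tauA⁻¹ = mat tauA⁻¹ * (!![1, 1; 0, 1] * !![1, -1; 0, 1]) := by rw [h2, mul_one]
          _ = (mat tauA⁻¹ * mat tauA) * !![1, -1; 0, 1] := by rw [mat_tauA, mul_assoc]
          _ = _ := by rw [h1, one_mul]
      rw [mat_mul, mat_mul, mat_tauB, hi, Matrix.mul_fin_two, Matrix.mul_fin_two,
        ModularGroup.coe_S]
      norm_num
    · rw [Set.mem_singleton_iff] at hx
      subst hx
      exact ⟨tauA, hA, by rw [mat_tauA, ModularGroup.coe_T]⟩
  | one => exact ⟨1, Mon.one_mem, by rw [mat_one]; rfl⟩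
  | mul x y _ _ hx hy =>
    obtain ⟨a, ha, ha'⟩ := hx
    obtain ⟨b, hb, hb'⟩ := hy
    exact ⟨a * b, Mon.mul_mem ha hb, by rw [mat_mul, ha', hb', Matrix.SpecialLinearGroup.coe_mul]⟩
  | inv x _ hx =>
    obtain ⟨a, ha, ha'⟩ := hx
    refine ⟨a⁻¹, Mon.inv_mem ha, ?_⟩
    have h1 := mat_inv_mul a
    rw [ha'] at h1
    have h2 : (x : Matrix (Fin 2) (Fin 2) ℤ) * ((x⁻¹ : Matrix.SpecialLinearGroup (Fin 2) ℤ) :
        Matrix (Fin 2) (Fin 2) ℤ) = 1 := by
      rw [← Matrix.SpecialLinearGroup.coe_mul, mul_inv_cancel, Matrix.SpecialLinearGroup.coe_one]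
    calc mat a⁻¹ = mat a⁻¹ * ((x : Matrix (Fin 2) (Fin 2) ℤ) *
          ((x⁻¹ : Matrix.SpecialLinearGroup (Fin 2) ℤ) : Matrix (Fin 2) (Fin 2) ℤ)) := by
            rw [h2, mul_one]
      _ = _ := by rw [← mul_assoc, h1, one_mul]

/-- the normal form of a monodromy with a two-generator bundle group -/
def psi (m : ℤ) : MulAut F2 := tauB * tauA⁻¹ * tauB * tauA ^ m

theorem psi_mem (m : ℤ) : psi m ∈ Mon := by
  have hA : tauA ∈ Mon := Subgroup.subset_closure (by simp)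
  have hB : tauB ∈ Mon := Subgroup.subset_closure (by simp)
  exact Mon.mul_mem (Mon.mul_mem (Mon.mul_mem hB (Mon.inv_mem hA)) hB) (Mon.zpow_mem hA m)

theorem tauA_zpow_x (m : ℤ) : (tauA ^ m) gx = gx := by
  induction m using Int.induction_on with
  | zero => simp
  | succ n ih => rw [zpow_add_one, MulAut.mul_apply, tauA_x, ih]
  | pred n ih => rw [zpow_sub_one, MulAut.mul_apply, MulAut.inv_def, tauA_inv_x, ih]

theorem tauA_zpow_y (m : ℤ) : (tauA ^ m) gy = gy * gx ^ m := by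
  induction m using Int.induction_on with
  | zero => simp
  | succ n ih =>
    rw [zpow_add_one, MulAut.mul_apply, tauA_y, map_mul, ih, tauA_zpow_x, zpow_add_one]
    group
  | pred n ih =>
    rw [zpow_sub_one, MulAut.mul_apply, MulAut.inv_def, tauA_inv_y, map_mul, map_inv, ih,
      tauA_zpow_x, zpow_sub_one]
    group

theorem psi_x (m : ℤ) : psi m gx = gx * gy * gx⁻¹ := by
  rw [psi, MulAut.mul_apply, tauA_zpow_x, MulAut.mul_apply, MulAut.mul_apply, tauB_x, map_mul,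
    MulAut.inv_def, tauA_inv_x, tauA_inv_y, map_mul, map_mul, map_inv, tauB_x, tauB_y]
  group

theorem psi_y (m : ℤ) : psi m gy = gy ^ m * gx⁻¹ := by
  have h1 : (tauB * tauA⁻¹ * tauB) gx = gx * gy * gx⁻¹ := by
    rw [MulAut.mul_apply, MulAut.mul_apply, tauB_x, map_mul,
      MulAut.inv_def, tauA_inv_x, tauA_inv_y, map_mul, map_mul, map_inv, tauB_x, tauB_y]
    group
  have h2 : (tauB * tauA⁻¹ * tauB) gy = gx⁻¹ := by
    rw [MulAut.mul_apply, MulAut.mul_apply, tauB_y,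
      MulAut.inv_def, tauA_inv_y, map_mul, map_inv, tauB_x, tauB_y]
    group
  rw [psi, MulAut.mul_apply, tauA_zpow_y, map_mul, map_zpow, h1, h2, conj_zpow]
  group

theorem mat_psi (m : ℤ) : mat (psi m) = !![0, -1; 1, m] := by
  have h : ∀ (i : Fin 2) (w : F2), (esum i w).toAdd = es i w := fun _ _ => rfl
  have hz : ∀ (i : Fin 2) (w : F2) (k : ℤ), es i (w ^ k) = k * es i w := by
    intro i w k
    simp [es]
  simp only [mat, h, psi_x, psi_y, es_mul, es_inv, es_0x, es_0y, es_1x, es_1y, hz]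
  norm_num

/-- the determinant of `(v, A v)`, `v = (p, q)` -/
def dvA (φ : MulAut F2) (p q : ℤ) : ℤ :=
  p * (mat φ 1 0 * p + mat φ 1 1 * q) - q * (mat φ 0 0 * p + mat φ 0 1 * q)

theorem companion_aux (a b c d p q : ℤ) (h : a * d - b * c = 1) :
    (!![a, b; c, d] : Matrix (Fin 2) (Fin 2) ℤ) * !![p, a * p + b * q; q, c * p + d * q] =
      !![p, a * p + b * q; q, c * p + d * q] * !![0, -1; 1, a + d] := by
  rw [Matrix.mul_fin_two, Matrix.mul_fin_two]
  have e1 : a * p + b * q = p * 0 + (a * p + b * q) * 1 := by ring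
  have e2 : a * (a * p + b * q) + b * (c * p + d * q) =
      p * -1 + (a * p + b * q) * (a + d) := by linear_combination (-p) * h
  have e3 : c * p + d * q = q * 0 + (c * p + d * q) * 1 := by ring
  have e4 : c * (a * p + b * q) + d * (c * p + d * q) =
      q * -1 + (c * p + d * q) * (a + d) := by linear_combination (-q) * h
  rw [← e1, ← e2, ← e3, ← e4]

/-- normal form of monodromies having a vector with `det (v, A v) = 1` -/
theorem normal_form_one {φ : MulAut F2} (hφ : φ ∈ Mon) {p q : ℤ} (h : dvA φ p q = 1) :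
    Nonempty (Bundle φ ≃* Bundle (psi (mat φ).trace)) := by
  set m := (mat φ).trace with hm
  have hdet := det_mat hφ
  rw [Matrix.det_fin_two] at hdet
  have hmm : m = mat φ 0 0 + mat φ 1 1 := by rw [hm, Matrix.trace_fin_two]
  let P : Matrix (Fin 2) (Fin 2) ℤ :=
    !![p, mat φ 0 0 * p + mat φ 0 1 * q; q, mat φ 1 0 * p + mat φ 1 1 * q]
  have hP : P.det = 1 := by
    rw [Matrix.det_fin_two_of]
    rw [dvA] at h
    linarith
  obtain ⟨ψ, hψ, hψ'⟩ := mat_surj ⟨P, hP⟩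
  have hψP : mat ψ = P := hψ'
  have hAP : mat φ * P = P * !![0, -1; 1, m] := by
    have e : mat φ = !![mat φ 0 0, mat φ 0 1; mat φ 1 0, mat φ 1 1] := Matrix.eta_fin_two _
    rw [hmm]
    calc mat φ * P = !![mat φ 0 0, mat φ 0 1; mat φ 1 0, mat φ 1 1] * P := by rw [← e]
      _ = _ := companion_aux _ _ _ _ p q hdet
  set χ := (psi m)⁻¹ * (ψ⁻¹ * φ * ψ) with hχ
  have hχm : χ ∈ Mon := Mon.mul_mem (Mon.inv_mem (psi_mem m))
    (Mon.mul_mem (Mon.mul_mem (Mon.inv_mem hψ) hφ) hψ)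
  have hmatχ : mat χ = 1 := by
    rw [hχ, mat_mul, mat_mul, mat_mul, hψP, mul_assoc (mat ψ⁻¹), hAP, ← mul_assoc (mat ψ⁻¹),
      ← hψP, mat_inv_mul, one_mul, ← mat_psi, mat_inv_mul]
  have h00 : es 0 (χ gx) = 1 := by
    have h1 : mat χ 0 0 = 1 := by rw [hmatχ]; rfl
    exact h1
  have h10 : es 1 (χ gx) = 0 := by
    have h1 : mat χ 1 0 = 0 := by rw [hmatχ]; rfl
    exact h1
  have h01 : es 0 (χ gy) = 0 := by
    have h1 : mat χ 0 1 = 0 := by rw [hmatχ]; rfl
    exact h1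
  have h11 : es 1 (χ gy) = 1 := by
    have h1 : mat χ 1 1 = 1 := by rw [hmatχ]; rfl
    exact h1
  obtain ⟨g, hg⟩ := inner_of_mat hχm h00 h10 h01 h11
  have hrel : ψ⁻¹ * φ = psi m * MulAut.conj g * ψ⁻¹ := by
    rw [← hg, hχ]; group
  refine bundle_iso ψ⁻¹ (psi m g) ?_
  intro w
  have := DFunLike.congr_fun hrel w
  simp only [MulAut.mul_apply, MulAut.conj_apply, map_mul, map_inv] at this
  exact this

end HG
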