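import Mathlib

/-!
# Algebraic Heegaard splittings and once-punctured torus bundles (project HG)

`Surf g` is the fundamental group of the closed orientable surface of genus `g`.
`HeegTorus G g` says that `G` is the fundamental group of a manifold with ONE TORUS boundary
component obtained from a genus `g` Heegaard splitting (handlebody and compression body);
`HeegClosed G g` is the closed version (two handlebodies).
`Bundle φ` is the fundamental group of the bundle over the circle with fibre the once-punctured
torus and monodromy `φ`.
-/

namespace HG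

/-- names of the generators `a i` (left) and `b i` (right) -/
abbrev Gen (g : ℕ) : Type := Fin g ⊕ Fin g

/-- the letter `a i` in the free group -/
def fa {g : ℕ} (i : Fin g) : FreeGroup (Gen g) := FreeGroup.of (Sum.inl i)

/-- the letter `b i` in the free group -/
def fb {g : ℕ} (i : Fin g) : FreeGroup (Gen g) := FreeGroup.of (Sum.inr i)

/-- the relator `[a 0, b 0] [a 1, b 1] ...` -/
def surfRel (g : ℕ) : FreeGroup (Gen g) :=
  (List.ofFn fun i : Fin g => fa i * fb i * (fa i)⁻¹ * (fb i)⁻¹).prod

/-- the surface group of genus `g` -/
abbrev Surf (g : ℕ) : Type := PresentedGroup {surfRel g}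

/-- the class of `b i` in the surface group (a meridian of the standard handlebody) -/
def sb {g : ℕ} (i : Fin g) : Surf g := PresentedGroup.mk _ (fb i)

/-- `G` has a (torus boundary) Heegaard splitting of genus `g`: handlebody with meridians `b i`,
compression body with meridians `α (b i)`, `i + 1 < g`. -/
def HeegTorus (G : Type) [Group G] (g : ℕ) : Prop :=
  1 ≤ g ∧ ∃ α : Surf g ≃* Surf g,
    Nonempty (G ≃* Surf g ⧸ Subgroup.normalClosure
      {w : Surf g | (∃ i : Fin g, w = sb i) ∨ (∃ i : Fin g, i.val + 1 < g ∧ w = α (sb i))})

/-- `G` has a closed Heegaard splitting of genus `g`: two handlebodies with meridians `b i`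
and `α (b i)`. -/
def HeegClosed (G : Type) [Group G] (g : ℕ) : Prop :=
  ∃ α : Surf g ≃* Surf g,
    Nonempty (G ≃* Surf g ⧸ Subgroup.normalClosure
      {w : Surf g | (∃ i : Fin g, w = sb i) ∨ (∃ i : Fin g, w = α (sb i))})

/-- Heegaard genus (manifolds with one torus boundary component) -/
noncomputable def genusTorus (G : Type) [Group G] : ℕ := sInf {g | HeegTorus G g}

/-- `G` is generated by `n` elements -/
def GenBy (G : Type) [Group G] (n : ℕ) : Prop :=
  ∃ f : Fin n → G, Subgroup.closure (Set.range f) = ⊤

/-- rank of a group: least number of generators -/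
noncomputable def rk (G : Type) [Group G] : ℕ := sInf {n | GenBy G n}

/-- the free group of rank two -/
abbrev F2 : Type := FreeGroup (Fin 2)

/-- first generator -/
def gx : F2 := FreeGroup.of 0

/-- second generator -/
def gy : F2 := FreeGroup.of 1

/-- the endomorphism of the free group with given images of the generators -/
def endo (u v : F2) : F2 →* F2 := FreeGroup.lift ![u, v]

theorem endo_x (u v : F2) : endo u v gx = u := by simp [endo, gx]

theorem endo_y (u v : F2) : endo u v gy = v := by simp [endo, gy]

theorem hom_ext2 {H : Type*} [Group H] {f g : F2 →* H} (h0 : f gx = g gx) (h1 : f gy = g gy) :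
    f = g := by
  apply FreeGroup.ext_hom
  intro i
  fin_cases i
  · exact h0
  · exact h1

/-- Dehn twist `x ↦ x`, `y ↦ y x` -/
def tauA : MulAut F2 :=
  MonoidHom.toMulEquiv (endo gx (gy * gx)) (endo gx (gy * gx⁻¹))
    (hom_ext2 (by simp [endo_x]) (by simp [endo_x, endo_y]))
    (hom_ext2 (by simp [endo_x]) (by simp [endo_x, endo_y]))

/-- Dehn twist `x ↦ x y`, `y ↦ y` -/
def tauB : MulAut F2 :=
  MonoidHom.toMulEquiv (endo (gx * gy) gy) (endo (gx * gy⁻¹) gy)
    (hom_ext2 (by simp [endo_x, endo_y]) (by simp [endo_y]))
    (hom_ext2 (by simp [endo_x, endo_y]) (by simp [endo_y]))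

/-- the mapping class group of the once-punctured torus relative to its boundary, acting on its
fundamental group: the subgroup of `Aut F` generated by the two Dehn twists -/
def Mon : Subgroup (MulAut F2) := Subgroup.closure {tauA, tauB}

/-- the fundamental group of the bundle over the circle with monodromy `φ` -/
abbrev Bundle (φ : MulAut F2) : Type :=
  F2 ⋊[zpowersHom (MulAut F2) φ] Multiplicative ℤ

/-- exponent sum of the generator `i` -/
def esum (i : Fin 2) : F2 →* Multiplicative ℤ :=
  FreeGroup.lift (fun j => if j = i then Multiplicative.ofAdd (1 : ℤ) else 1)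

/-- the matrix of `φ` on the abelianisation (columns are the images of the generators) -/
def mat (φ : MulAut F2) : Matrix (Fin 2) (Fin 2) ℤ :=
  !![(esum 0 (φ gx)).toAdd, (esum 0 (φ gy)).toAdd; (esum 1 (φ gx)).toAdd, (esum 1 (φ gy)).toAdd]

end HG
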