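import Pool.Agent.HG.GenusThree

/-!
# Rank equals Heegaard genus for once-punctured torus bundles (project HG)
-/

namespace HG

open SemidirectProduct

/-- the one-relator presentation: `x s² x s⁻¹ x^(-m) s⁻¹`, `x = of 0`, `s = of 1` -/
def oneRel (m : ℤ) : FreeGroup (Fin 2) :=
  gx * gy * gy * gx * gy⁻¹ * gx ^ (-m) * gy⁻¹

/-- the bundle group of `psi m` is a two-generator one-relator group -/
theorem oneRel_iso (m : ℤ) : Nonempty (Bundle (psi m) ≃* PresentedGroup {oneRel m}) := by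
  have hSX : ((inl gx)⁻¹ * bT (psi m)) * inl gx * ((inl gx)⁻¹ * bT (psi m))⁻¹ =
      (inl gy : Bundle (psi m)) := by
    have h1 := bT_conj (psi m) gx
    calc _ = (inl gx)⁻¹ * (bT (psi m) * inl gx * (bT (psi m))⁻¹) * inl gx := by group
      _ = inl gy := by
          rw [h1, psi_x, ← map_inv, ← map_mul, ← map_mul]
          congr 1
          group
  have hSY : ((inl gx)⁻¹ * bT (psi m)) * inl gy * ((inl gx)⁻¹ * bT (psi m))⁻¹ =
      (inl (gx⁻¹ * gy ^ m) : Bundle (psi m)) := by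
    have h1 := bT_conj (psi m) gy
    calc _ = (inl gx)⁻¹ * (bT (psi m) * inl gy * (bT (psi m))⁻¹) * inl gx := by group
      _ = _ := by
          rw [h1, psi_y, ← map_inv, ← map_mul, ← map_mul]
          congr 1
          group
  set X : Bundle (psi m) := inl gx with hX
  set Y : Bundle (psi m) := inl gy with hY
  set S : Bundle (psi m) := X⁻¹ * bT (psi m) with hS
  have hrel : X * S * S * X * S⁻¹ * X ^ (-m) * S⁻¹ = 1 := by
    calc X * S * S * X * S⁻¹ * X ^ (-m) * S⁻¹
        = X * (S * (S * X * S⁻¹) * S⁻¹) * (S * X * S⁻¹) ^ (-m) := by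
          rw [conj_zpow]; group
      _ = 1 := by
          rw [hSX, hSY, hX, hY, ← map_zpow, ← map_mul, ← map_mul]
          rw [show gx * (gx⁻¹ * gy ^ m) * gy ^ (-m) = 1 by group, map_one]
  -- from the presented group
  have hK0 : ∀ r ∈ ({oneRel m} : Set (FreeGroup (Fin 2))),
      (FreeGroup.lift ![X, S] : F2 →* Bundle (psi m)) r = 1 := by
    intro r hr
    rw [Set.mem_singleton_iff] at hr
    subst hr
    have ex : (FreeGroup.lift ![X, S] : F2 →* Bundle (psi m)) gx = X := by simp [gx]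
    have ey : (FreeGroup.lift ![X, S] : F2 →* Bundle (psi m)) gy = S := by simp [gy]
    rw [oneRel]
    simp only [map_mul, map_inv, map_zpow, ex, ey]
    exact hrel
  let K : PresentedGroup {oneRel m} →* Bundle (psi m) := PresentedGroup.toGroup hK0
  have hKx : K (PresentedGroup.of 0) = X := by simp [K]
  have hKs : K (PresentedGroup.of 1) = S := by simp [K]
  -- to the presented group
  set A : PresentedGroup {oneRel m} := PresentedGroup.of 0 with hA
  set C : PresentedGroup {oneRel m} := PresentedGroup.of 1 with hC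
  have h2 : A * C * C * A * C⁻¹ * A ^ (-m) * C⁻¹ = 1 := by
    have h := PresentedGroup.one_of_mem (rels := {oneRel m}) (Set.mem_singleton (oneRel m))
    have ex : PresentedGroup.mk {oneRel m} gx = A := rfl
    have ey : PresentedGroup.mk {oneRel m} gy = C := rfl
    rw [oneRel] at h
    simp only [map_mul, map_inv, map_zpow] at h
    exact h
  have h3 : C * C * A * C⁻¹ = A⁻¹ * C * A ^ m := by
    calc C * C * A * C⁻¹ = A⁻¹ * (A * C * C * A * C⁻¹ * A ^ (-m) * C⁻¹) * C * A ^ m := by group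
      _ = _ := by rw [h2]; group
  have ex : (FreeGroup.lift ![A, C * A * C⁻¹] : F2 →* PresentedGroup {oneRel m}) gx = A := by
    simp [gx]
  have ey : (FreeGroup.lift ![A, C * A * C⁻¹] : F2 →* PresentedGroup {oneRel m}) gy =
      C * A * C⁻¹ := by simp [gy]
  obtain ⟨F, hF1, hF2⟩ := bundle_lift (psi m)
    (FreeGroup.lift ![A, C * A * C⁻¹] : F2 →* PresentedGroup {oneRel m}) (A * C) (by
      intro w
      have hh : (MulAut.conj (A * C)).toMonoidHom.comp
          (FreeGroup.lift ![A, C * A * C⁻¹] : F2 →* PresentedGroup {oneRel m}) =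
          (FreeGroup.lift ![A, C * A * C⁻¹] : F2 →* PresentedGroup {oneRel m}).comp
            (psi m).toMonoidHom := by
        apply hom_ext2
        · simp only [MonoidHom.comp_apply, MulEquiv.toMonoidHom_eq_coe, MonoidHom.coe_coe,
            MulAut.conj_apply]
          rw [psi_x, map_mul, map_mul, map_inv, ex, ey]
          group
        · simp only [MonoidHom.comp_apply, MulEquiv.toMonoidHom_eq_coe, MonoidHom.coe_coe,
            MulAut.conj_apply]
          rw [psi_y, map_mul, map_inv, map_zpow, ex, ey, conj_zpow]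
          calc A * C * (C * A * C⁻¹) * (A * C)⁻¹ = A * (C * C * A * C⁻¹) * C⁻¹ * A⁻¹ := by group
            _ = _ := by rw [h3]; group
      exact DFunLike.congr_fun hh w)
  refine ⟨MonoidHom.toMulEquiv F K ?_ ?_⟩
  · apply bundle_ext
    · rw [MonoidHom.comp_apply, hF1, ex, hKx]; rfl
    · rw [MonoidHom.comp_apply, hF1, ey, map_mul, map_mul, map_inv, hKx, hKs, hSX]; rfl
    · rw [MonoidHom.comp_apply, hF2, map_mul, hKx, hKs, hS, mul_inv_cancel_left]; rfl
  · apply PresentedGroup.ext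
    intro i
    fin_cases i
    · show F (K A) = A
      rw [hKx, hX, hF1, ex]
    · show F (K C) = C
      rw [hKs, hS, map_mul, map_inv, hX, hF1, ex, hF2, inv_mul_cancel_left]

/-- the group of the one-relator presentation is generated by two elements -/
theorem genBy_oneRel {φ : MulAut F2} {m : ℤ} (e : Bundle φ ≃* PresentedGroup {oneRel m}) :
    GenBy (Bundle φ) 2 := by
  refine ⟨fun i => e.symm (PresentedGroup.of i), ?_⟩
  rw [eq_top_iff]
  intro z _
  have hz : e z ∈ Subgroup.closure (Set.range (PresentedGroup.of (rels := {oneRel m}))) := by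
    rw [PresentedGroup.closure_range_of]; trivial
  have h1 : e.symm (e z) ∈ (Subgroup.closure
      (Set.range (PresentedGroup.of (rels := {oneRel m})))).map e.symm.toMonoidHom :=
    ⟨e z, hz, rfl⟩
  rw [e.symm_apply_apply, MonoidHom.map_closure, ← Set.range_comp] at h1
  exact h1

/-- two-generator bundle groups: all characterisations -/
theorem two_iff {φ : MulAut F2} (hφ : φ ∈ Mon) :
    (GenBy (Bundle φ) 2 ↔ ∃ p q : ℤ, IsUnit (dvA φ p q)) ∧
    (GenBy (Bundle φ) 2 ↔ HeegTorus (Bundle φ) 2) ∧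
    (GenBy (Bundle φ) 2 ↔ Nonempty (Bundle φ ≃* PresentedGroup {oneRel (mat φ).trace})) := by
  have h1 : GenBy (Bundle φ) 2 → ∃ p q : ℤ, IsUnit (dvA φ p q) := unit_of_genBy_two hφ
  have h2 : (∃ p q : ℤ, IsUnit (dvA φ p q)) → HeegTorus (Bundle φ) 2 := by
    rintro ⟨p, q, h⟩
    obtain ⟨e⟩ := normal_form hφ h
    exact heeg_congr e.symm (heeg_two _)
  have h3 : HeegTorus (Bundle φ) 2 → GenBy (Bundle φ) 2 := genBy_of_heeg
  have h4 : (∃ p q : ℤ, IsUnit (dvA φ p q)) →
      Nonempty (Bundle φ ≃* PresentedGroup {oneRel (mat φ).trace}) := by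
    rintro ⟨p, q, h⟩
    obtain ⟨e⟩ := normal_form hφ h
    obtain ⟨e'⟩ := oneRel_iso (mat φ).trace
    exact ⟨e.trans e'⟩
  have h5 : Nonempty (Bundle φ ≃* PresentedGroup {oneRel (mat φ).trace}) → GenBy (Bundle φ) 2 := by
    rintro ⟨e⟩
    exact genBy_oneRel e
  exact ⟨⟨h1, fun h => h3 (h2 h)⟩, ⟨fun h => h2 (h1 h), h3⟩, ⟨fun h => h4 (h1 h), h5⟩⟩

theorem rk_eq_two {φ : MulAut F2} (h : GenBy (Bundle φ) 2) : rk (Bundle φ) = 2 := by
  apply le_antisymm (Nat.sInf_le h)
  by_contra hlt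
  push Not at hlt
  have h1 : sInf {n | GenBy (Bundle φ) n} ∈ {n | GenBy (Bundle φ) n} := Nat.sInf_mem ⟨2, h⟩
  exact not_genBy_lt_two φ hlt h1

theorem genus_eq_two {φ : MulAut F2} (h : HeegTorus (Bundle φ) 2) : genusTorus (Bundle φ) = 2 := by
  apply le_antisymm (Nat.sInf_le h)
  by_contra hlt
  push Not at hlt
  have h1 : sInf {n | HeegTorus (Bundle φ) n} ∈ {n | HeegTorus (Bundle φ) n} :=
    Nat.sInf_mem ⟨2, h⟩
  exact not_genBy_lt_two φ hlt (genBy_of_heeg h1)

theorem not_genBy_lt_three {φ : MulAut F2} (h : ¬ GenBy (Bundle φ) 2) {n : ℕ} (hn : n < 3) :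
    ¬ GenBy (Bundle φ) n := by
  rcases Nat.lt_succ_iff_lt_or_eq.1 hn with h1 | rfl
  · exact not_genBy_lt_two φ h1
  · exact h

theorem rk_eq_three {φ : MulAut F2} (hφ : φ ∈ Mon) (h : ¬ GenBy (Bundle φ) 2) :
    rk (Bundle φ) = 3 := by
  have h3 : GenBy (Bundle φ) 3 := genBy_of_heeg (heeg_three hφ)
  apply le_antisymm (Nat.sInf_le h3)
  by_contra hlt
  push Not at hlt
  have h1 : sInf {n | GenBy (Bundle φ) n} ∈ {n | GenBy (Bundle φ) n} := Nat.sInf_mem ⟨3, h3⟩
  exact not_genBy_lt_three h hlt h1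

theorem genus_eq_three {φ : MulAut F2} (hφ : φ ∈ Mon) (h : ¬ GenBy (Bundle φ) 2) :
    genusTorus (Bundle φ) = 3 := by
  have h3 : HeegTorus (Bundle φ) 3 := heeg_three hφ
  apply le_antisymm (Nat.sInf_le h3)
  by_contra hlt
  push Not at hlt
  have h1 : sInf {n | HeegTorus (Bundle φ) n} ∈ {n | HeegTorus (Bundle φ) n} :=
    Nat.sInf_mem ⟨3, h3⟩
  exact not_genBy_lt_three h hlt (genBy_of_heeg h1)

/-! ### powers -/

/-- the Chebyshev sequence with parameter the trace -/
def cheb (t : ℤ) : ℕ → ℤ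
  | 0 => 0
  | 1 => 1
  | (n + 2) => t * cheb t (n + 1) - cheb t n

theorem mat_pow {φ : MulAut F2} (hφ : φ ∈ Mon) (n : ℕ) :
    mat (φ ^ (n + 1)) = cheb (mat φ).trace (n + 1) • mat φ - cheb (mat φ).trace n • 1 := by
  have hdet := det_mat hφ
  have hCH : mat φ * mat φ = (mat φ).trace • mat φ - 1 := by
    have e : mat φ = !![mat φ 0 0, mat φ 0 1; mat φ 1 0, mat φ 1 1] := Matrix.eta_fin_two _
    rw [Matrix.det_fin_two] at hdet
    have key : ∀ a b c d : ℤ, a * d - b * c = 1 →
        (!![a, b; c, d] : Matrix (Fin 2) (Fin 2) ℤ) * !![a, b; c, d] =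
          (a + d) • !![a, b; c, d] - 1 := by
      intro a b c d h
      rw [Matrix.mul_fin_two]
      ext i j
      fin_cases i <;> fin_cases j <;> simp
      · linear_combination (-1) * h
      · ring
      · ring
      · linear_combination (-1) * h
    rw [Matrix.trace_fin_two]
    calc mat φ * mat φ = !![mat φ 0 0, mat φ 0 1; mat φ 1 0, mat φ 1 1] *
          !![mat φ 0 0, mat φ 0 1; mat φ 1 0, mat φ 1 1] := by rw [← e]
      _ = (mat φ 0 0 + mat φ 1 1) • !![mat φ 0 0, mat φ 0 1; mat φ 1 0, mat φ 1 1] - 1 :=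
          key _ _ _ _ hdet
      _ = _ := by rw [← e]
  induction n with
  | zero => simp [cheb]
  | succ n ih =>
    rw [pow_succ, mat_mul, ih, sub_mul, smul_mul_assoc, hCH, smul_mul_assoc, one_mul, cheb]
    rw [smul_sub, smul_smul, sub_smul, mul_comm]
    abel

theorem cheb_growth {t : ℤ} (ht : 2 < |t|) (n : ℕ) : |cheb t n| < |cheb t (n + 1)| := by
  induction n with
  | zero => simp [cheb]
  | succ n ih =>
    have h1 : |t * cheb t (n + 1)| ≤ |cheb t (n + 2)| + |cheb t n| := by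
      have h2 : t * cheb t (n + 1) = cheb t (n + 2) + cheb t n := by rw [cheb]; ring
      rw [h2]
      exact abs_add_le _ _
    rw [abs_mul] at h1
    have h3 : 0 ≤ |cheb t n| := abs_nonneg _
    have h4 : 3 * |cheb t (n + 1)| ≤ |t| * |cheb t (n + 1)| :=
      mul_le_mul_of_nonneg_right (by omega) (abs_nonneg _)
    linarith

theorem cheb_ge {t : ℤ} (ht : 2 < |t|) (n : ℕ) : (n : ℤ) ≤ |cheb t n| := by
  induction n with
  | zero => simp
  | succ n ih =>
    have := cheb_growth ht n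
    push_cast
    omega

theorem not_genBy_pow {φ : MulAut F2} (hφ : φ ∈ Mon) (ht : 2 < |(mat φ).trace|) {n : ℕ}
    (hn : 2 ≤ n) : ¬ GenBy (Bundle (φ ^ n)) 2 := by
  intro h
  obtain ⟨p, q, hu⟩ := unit_of_genBy_two (Mon.pow_mem hφ n) h
  obtain ⟨k, rfl⟩ : ∃ k, n = k + 1 := ⟨n - 1, by omega⟩
  have h1 : dvA (φ ^ (k + 1)) p q = cheb (mat φ).trace (k + 1) * dvA φ p q := by
    have hij : ∀ i j : Fin 2, mat (φ ^ (k + 1)) i j = cheb (mat φ).trace (k + 1) * mat φ i j -
        cheb (mat φ).trace k * (1 : Matrix (Fin 2) (Fin 2) ℤ) i j := by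
      intro i j
      rw [mat_pow hφ k, Matrix.sub_apply, Matrix.smul_apply, Matrix.smul_apply, smul_eq_mul,
        smul_eq_mul]
    have e00 : (1 : Matrix (Fin 2) (Fin 2) ℤ) 0 0 = 1 := rfl
    have e01 : (1 : Matrix (Fin 2) (Fin 2) ℤ) 0 1 = 0 := rfl
    have e10 : (1 : Matrix (Fin 2) (Fin 2) ℤ) 1 0 = 0 := rfl
    have e11 : (1 : Matrix (Fin 2) (Fin 2) ℤ) 1 1 = 1 := rfl
    rw [dvA, hij, hij, hij, hij, e00, e01, e10, e11, dvA]
    ring
  rw [h1] at hu
  have h2 : IsUnit (cheb (mat φ).trace (k + 1)) := isUnit_of_mul_isUnit_left hu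
  have h3 : |cheb (mat φ).trace (k + 1)| = 1 := Int.isUnit_iff_abs_eq.1 h2
  have h4 := cheb_ge ht (k + 1)
  rw [h3] at h4
  push_cast at h4
  omega

end HG
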