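import Pool.Agent.HG.GenusTwo

/-!
# The genus three splitting of every once-punctured torus bundle (project HG)
-/

namespace HG

/-- homomorphism from the free group on `a 0, b 0, a 1, b 1, a 2, b 2` -/
def hom6 {H : Type*} [Group H] (p q r s t u : H) : FreeGroup (Gen 3) →* H :=
  FreeGroup.lift (Sum.elim ![p, r, t] ![q, s, u])

section values
variable {H : Type*} [Group H] (p q r s t u : H)

theorem hom6_a0 : hom6 p q r s t u (fa 0) = p := by simp [hom6, fa]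
theorem hom6_b0 : hom6 p q r s t u (fb 0) = q := by simp [hom6, fb]
theorem hom6_a1 : hom6 p q r s t u (fa 1) = r := by simp [hom6, fa]
theorem hom6_b1 : hom6 p q r s t u (fb 1) = s := by simp [hom6, fb]
theorem hom6_a2 : hom6 p q r s t u (fa 2) = t := by simp [hom6, fa]
theorem hom6_b2 : hom6 p q r s t u (fb 2) = u := by simp [hom6, fb]

end values

theorem hom6_ext {H : Type*} [Group H] {F K : FreeGroup (Gen 3) →* H}
    (h1 : F (fa 0) = K (fa 0)) (h2 : F (fb 0) = K (fb 0))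
    (h3 : F (fa 1) = K (fa 1)) (h4 : F (fb 1) = K (fb 1))
    (h5 : F (fa 2) = K (fa 2)) (h6 : F (fb 2) = K (fb 2)) : F = K := by
  apply FreeGroup.ext_hom
  rintro (i | i) <;> fin_cases i
  · exact h1
  · exact h3
  · exact h5
  · exact h2
  · exact h4
  · exact h6

theorem surfRel_three : surfRel 3 =
    fa 0 * fb 0 * (fa 0)⁻¹ * (fb 0)⁻¹ * (fa 1 * fb 1 * (fa 1)⁻¹ * (fb 1)⁻¹) *
      (fa 2 * fb 2 * (fa 2)⁻¹ * (fb 2)⁻¹) := by
  simp [surfRel, List.ofFn_succ, mul_assoc]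

/-- the automorphism `Γ` as an endomorphism -/
def Gh : FreeGroup (Gen 3) →* FreeGroup (Gen 3) :=
  hom6 ((fa 0 * fb 0 * (fa 0)⁻¹ * (fb 0)⁻¹) * fa 1 * fb 1 * (fa 1)⁻¹ *
      (fa 0 * fb 0 * (fa 0)⁻¹ * (fb 0)⁻¹)⁻¹)
    (fa 0 * fb 0 * (fa 0)⁻¹ * (fa 1)⁻¹ * (fa 0 * fb 0 * (fa 0)⁻¹ * (fb 0)⁻¹)⁻¹)
    (fa 0 * fb 0 * (fa 0)⁻¹) (fb 1 * (fa 0)⁻¹) (fa 2) (fb 2)

/-- auxiliary words for the inverse -/
def gu : FreeGroup (Gen 3) := (fb 0)⁻¹ * fa 1
/-- auxiliary words for the inverse -/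
def gx' : FreeGroup (Gen 3) := gu⁻¹ * fa 0 * gu
/-- auxiliary words for the inverse -/
def gX0 : FreeGroup (Gen 3) := (fb 1)⁻¹ * gx'
/-- auxiliary words for the inverse -/
def gY0 : FreeGroup (Gen 3) := gX0⁻¹ * fa 1 * gX0

/-- the inverse of `Γ` as an endomorphism -/
def Gi : FreeGroup (Gen 3) →* FreeGroup (Gen 3) :=
  hom6 gX0 gY0 (gY0 * (fa 1)⁻¹ * gu) gx' (fa 2) (fb 2)

/-- the automorphism `Γ` -/
def GA : MulAut (FreeGroup (Gen 3)) :=
  MonoidHom.toMulEquiv Gh Gi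
    (by
      apply hom6_ext <;>
        simp only [MonoidHom.comp_apply, MonoidHom.id_apply, Gh, Gi, hom6_a0, hom6_b0, hom6_a1,
          hom6_b1, hom6_a2, hom6_b2, map_mul, map_inv, gX0, gY0, gx', gu] <;> group)
    (by
      apply hom6_ext <;>
        simp only [MonoidHom.comp_apply, MonoidHom.id_apply, Gh, Gi, hom6_a0, hom6_b0, hom6_a1,
          hom6_b1, hom6_a2, hom6_b2, map_mul, map_inv, gX0, gY0, gx', gu] <;> group)

/-- the commutator `c' = [X', Y']` -/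
def cc : FreeGroup (Gen 3) := fb 1 * fa 1 * (fb 1)⁻¹ * (fa 1)⁻¹

/-- the conjugated stable letter -/
def th : FreeGroup (Gen 3) := cc⁻¹ * fa 2 * cc

/-- the automorphism `η` -/
def EA : MulAut (FreeGroup (Gen 3)) :=
  MonoidHom.toMulEquiv
    (hom6 (fa 2 * fa 0 * (fa 2)⁻¹) (fa 2 * fb 0 * (fa 2)⁻¹) (fa 1) (fb 1)
      (cc * fa 2 * cc⁻¹) (fa 2 * fb 2 * cc⁻¹))
    (hom6 (th⁻¹ * fa 0 * th) (th⁻¹ * fb 0 * th) (fa 1) (fb 1) th (th⁻¹ * fb 2 * cc))
    (by
      apply hom6_ext <;>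
        simp only [MonoidHom.comp_apply, MonoidHom.id_apply, hom6_a0, hom6_b0, hom6_a1,
          hom6_b1, hom6_a2, hom6_b2, map_mul, map_inv, th, cc] <;> group)
    (by
      apply hom6_ext <;>
        simp only [MonoidHom.comp_apply, MonoidHom.id_apply, hom6_a0, hom6_b0, hom6_a1,
          hom6_b1, hom6_a2, hom6_b2, map_mul, map_inv, th, cc] <;> group)

/-- the embedding of the fibre group as the second copy -/
def io : F2 →* FreeGroup (Gen 3) := FreeGroup.lift ![fb 1, fa 1]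

theorem io_x : io gx = fb 1 := by simp [io, gx]
theorem io_y : io gy = fa 1 := by simp [io, gy]

/-- `φ` acting on the second copy, as an endomorphism -/
def Ph (φ : MulAut F2) : FreeGroup (Gen 3) →* FreeGroup (Gen 3) :=
  hom6 (fa 0) (fb 0) (io (φ gy)) (io (φ gx)) (fa 2) (fb 2)

theorem Ph_io (φ : MulAut F2) (w : F2) : Ph φ (io w) = io (φ w) := by
  have h : (Ph φ).comp io = io.comp φ.toMonoidHom := by
    apply hom_ext2
    · simp [io_x, Ph, hom6_b1]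
    · simp [io_y, Ph, hom6_a1]
  exact DFunLike.congr_fun h w

theorem Ph_comp (φ ψ : MulAut F2) (h : φ * ψ = 1) : (Ph φ).comp (Ph ψ) = MonoidHom.id _ := by
  have h1 : ∀ w, φ (ψ w) = w := by
    intro w; rw [← MulAut.mul_apply, h, MulAut.one_apply]
  apply hom6_ext
  · simp [Ph, hom6_a0]
  · simp [Ph, hom6_b0]
  · rw [MonoidHom.comp_apply]
    have : Ph ψ (fa 1) = io (ψ gy) := by simp [Ph, hom6_a1]
    rw [this, Ph_io, h1, io_y]; rfl
  · rw [MonoidHom.comp_apply]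
    have : Ph ψ (fb 1) = io (ψ gx) := by simp [Ph, hom6_b1]
    rw [this, Ph_io, h1, io_x]; rfl
  · simp [Ph, hom6_a2]
  · simp [Ph, hom6_b2]

/-- `φ` acting on the second copy -/
def PA (φ : MulAut F2) : MulAut (FreeGroup (Gen 3)) :=
  MonoidHom.toMulEquiv (Ph φ) (Ph φ⁻¹) (Ph_comp _ _ (inv_mul_cancel φ))
    (Ph_comp _ _ (mul_inv_cancel φ))

theorem mon_comm {φ : MulAut F2} (h : φ ∈ Mon) :
    φ (gx * gy * gx⁻¹ * gy⁻¹) = gx * gy * gx⁻¹ * gy⁻¹ := by
  induction h using Subgroup.closure_induction with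
  | mem x hx =>
    rcases hx with rfl | hx
    · rw [map_mul, map_mul, map_mul, map_inv, map_inv, tauA_x, tauA_y]; group
    · rw [Set.mem_singleton_iff] at hx
      subst hx
      rw [map_mul, map_mul, map_mul, map_inv, map_inv, tauB_x, tauB_y]; group
  | one => rfl
  | mul x y _ _ hx hy => rw [MulAut.mul_apply, hy, hx]
  | inv x _ hx =>
    rw [MulAut.inv_def, MulEquiv.symm_apply_eq, hx]

theorem GA_a0 : GA (fa 0) = (fa 0 * fb 0 * (fa 0)⁻¹ * (fb 0)⁻¹) * fa 1 * fb 1 * (fa 1)⁻¹ *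
      (fa 0 * fb 0 * (fa 0)⁻¹ * (fb 0)⁻¹)⁻¹ := by
  simp [GA, Gh, hom6_a0]
theorem GA_b0 : GA (fb 0) = fa 0 * fb 0 * (fa 0)⁻¹ * (fa 1)⁻¹ *
      (fa 0 * fb 0 * (fa 0)⁻¹ * (fb 0)⁻¹)⁻¹ := by
  simp [GA, Gh, hom6_b0]
theorem GA_a1 : GA (fa 1) = fa 0 * fb 0 * (fa 0)⁻¹ := by
  simp [GA, Gh, hom6_a1]
theorem GA_b1 : GA (fb 1) = fb 1 * (fa 0)⁻¹ := by
  simp [GA, Gh, hom6_b1]
theorem GA_a2 : GA (fa 2) = fa 2 := by
  simp [GA, Gh, hom6_a2]
theorem GA_b2 : GA (fb 2) = fb 2 := by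
  simp [GA, Gh, hom6_b2]

theorem EA_a0 : EA (fa 0) = fa 2 * fa 0 * (fa 2)⁻¹ := by simp [EA, hom6_a0]
theorem EA_b0 : EA (fb 0) = fa 2 * fb 0 * (fa 2)⁻¹ := by simp [EA, hom6_b0]
theorem EA_a1 : EA (fa 1) = fa 1 := by simp [EA, hom6_a1]
theorem EA_b1 : EA (fb 1) = fb 1 := by simp [EA, hom6_b1]
theorem EA_a2 : EA (fa 2) = cc * fa 2 * cc⁻¹ := by simp [EA, hom6_a2]
theorem EA_b2 : EA (fb 2) = fa 2 * fb 2 * cc⁻¹ := by simp [EA, hom6_b2]

theorem PA_a0 (φ : MulAut F2) : PA φ (fa 0) = fa 0 := by simp [PA, Ph, hom6_a0]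
theorem PA_b0 (φ : MulAut F2) : PA φ (fb 0) = fb 0 := by simp [PA, Ph, hom6_b0]
theorem PA_a1 (φ : MulAut F2) : PA φ (fa 1) = io (φ gy) := by simp [PA, Ph, hom6_a1]
theorem PA_b1 (φ : MulAut F2) : PA φ (fb 1) = io (φ gx) := by simp [PA, Ph, hom6_b1]
theorem PA_a2 (φ : MulAut F2) : PA φ (fa 2) = fa 2 := by simp [PA, Ph, hom6_a2]
theorem PA_b2 (φ : MulAut F2) : PA φ (fb 2) = fb 2 := by simp [PA, Ph, hom6_b2]

theorem GA_rel : GA (surfRel 3) = surfRel 3 := by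
  rw [surfRel_three]
  simp only [map_mul, map_inv, GA_a0, GA_b0, GA_a1, GA_b1, GA_a2, GA_b2]
  group

theorem EA_rel : EA (surfRel 3) = fa 2 * surfRel 3 * (fa 2)⁻¹ := by
  rw [surfRel_three]
  simp only [map_mul, map_inv, EA_a0, EA_b0, EA_a1, EA_b1, EA_a2, EA_b2, cc]
  group

theorem PA_rel {φ : MulAut F2} (h : φ ∈ Mon) : PA φ (surfRel 3) = surfRel 3 := by
  have h1 : io (φ gx) * io (φ gy) * (io (φ gx))⁻¹ * (io (φ gy))⁻¹ =
      fb 1 * fa 1 * (fb 1)⁻¹ * (fa 1)⁻¹ := by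
    have h2 := congrArg io (mon_comm h)
    simp only [map_mul, map_inv, io_x, io_y] at h2
    exact h2
  have h3 : io (φ gy) * io (φ gx) * (io (φ gy))⁻¹ * (io (φ gx))⁻¹ =
      fa 1 * fb 1 * (fa 1)⁻¹ * (fb 1)⁻¹ := by
    calc io (φ gy) * io (φ gx) * (io (φ gy))⁻¹ * (io (φ gx))⁻¹
        = (io (φ gx) * io (φ gy) * (io (φ gx))⁻¹ * (io (φ gy))⁻¹)⁻¹ := by group
      _ = _ := by rw [h1]; group
  rw [surfRel_three]
  simp only [map_mul, map_inv, PA_a0, PA_b0, PA_a1, PA_b1, PA_a2, PA_b2]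
  rw [h3]

/-- every once-punctured torus bundle has a genus three splitting -/
theorem heeg_three {φ : MulAut F2} (hφ : φ ∈ Mon) : HeegTorus (Bundle φ) 3 := by
  set X : Bundle φ := SemidirectProduct.inl gx with hX
  set Y : Bundle φ := SemidirectProduct.inl gy with hY
  set T : Bundle φ := bT φ with hT
  have cX : T * X * T⁻¹ = SemidirectProduct.inl (φ gx) := bT_conj φ gx
  have cY : T * Y * T⁻¹ = SemidirectProduct.inl (φ gy) := bT_conj φ gy
  let θ : FreeGroup (Gen 3) →* Bundle φ := hom6 X Y Y X T 1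
  have ta0 : θ (fa 0) = X := hom6_a0 _ _ _ _ _ _
  have tb0 : θ (fb 0) = Y := hom6_b0 _ _ _ _ _ _
  have ta1 : θ (fa 1) = Y := hom6_a1 _ _ _ _ _ _
  have tb1 : θ (fb 1) = X := hom6_b1 _ _ _ _ _ _
  have ta2 : θ (fa 2) = T := hom6_a2 _ _ _ _ _ _
  have tb2 : θ (fb 2) = 1 := hom6_b2 _ _ _ _ _ _
  have tio : ∀ w, θ (io w) = SemidirectProduct.inl w := by
    have h : θ.comp io = (SemidirectProduct.inl : F2 →* Bundle φ) := by
      apply hom_ext2
      · rw [MonoidHom.comp_apply, io_x, tb1]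
      · rw [MonoidHom.comp_apply, io_y, ta1]
    intro w
    exact DFunLike.congr_fun h w
  have hΔ : (PA φ * EA * GA) (surfRel 3) = fa 2 * surfRel 3 * (fa 2)⁻¹ := by
    rw [MulAut.mul_apply, MulAut.mul_apply, GA_rel, EA_rel, map_mul, map_mul, map_inv, PA_rel hφ,
      PA_a2]
  have d0 : (PA φ * EA * GA) (fb 0) = fa 2 * (fa 0 * fb 0 * (fa 0)⁻¹) * (fa 2)⁻¹ *
      (io (φ gy))⁻¹ * (fa 2 * (fb 0 * fa 0 * (fb 0)⁻¹ * (fa 0)⁻¹) * (fa 2)⁻¹) := by
    rw [MulAut.mul_apply, MulAut.mul_apply, GA_b0]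
    simp only [map_mul, map_inv, EA_a0, EA_b0, EA_a1, PA_a0, PA_b0, PA_a1, PA_a2]
    group
  have d1 : (PA φ * EA * GA) (fb 1) = io (φ gx) * (fa 2 * (fa 0)⁻¹ * (fa 2)⁻¹) := by
    rw [MulAut.mul_apply, MulAut.mul_apply, GA_b1]
    simp only [map_mul, map_inv, EA_a0, EA_b1, PA_a0, PA_b1, PA_a2]
    group
  refine heeg_of (by norm_num) GA (PA φ * EA * GA) 1 (fa 2) (by rw [GA_rel]; simp) hΔ θ
    ?_ ?_ ?_ ?_ ?_
  · rw [← MonoidHom.range_eq_top]
    exact bundle_gen _ ⟨fa 0, ta0⟩ ⟨fb 0, tb0⟩ ⟨fa 2, ta2⟩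
  · rw [surfRel_three]
    simp only [map_mul, map_inv, ta0, tb0, ta1, tb1, ta2, tb2]
    group
  · intro i
    fin_cases i
    · have : θ (GA (fb 0)) = 1 := by
        rw [GA_b0]
        simp only [map_mul, map_inv, ta0, tb0, ta1]
        group
      exact this
    · have : θ (GA (fb 1)) = 1 := by
        rw [GA_b1]
        simp only [map_mul, map_inv, ta0, tb1]
        group
      exact this
    · have : θ (GA (fb 2)) = 1 := by
        rw [GA_b2, tb2]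
      exact this
  · intro i hi
    have hi' : i = 0 ∨ i = 1 := by
      have h1 : i.val = 0 ∨ i.val = 1 := by omega
      rcases h1 with h1 | h1
      · left; exact Fin.ext h1
      · right; exact Fin.ext h1
    rcases hi' with rfl | rfl
    · rw [d0]
      simp only [map_mul, map_inv, tio, ta0, tb0, ta2]
      rw [← cY]
      group
    · rw [d1]
      simp only [map_mul, map_inv, tio, ta0, ta2]
      rw [← cX]
      group
  · intro Q _ f hR hb hD
    have b0 := hb 0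
    have b1 := hb 1
    have b2 := hb 2
    have e0 := hD 0 (by norm_num)
    have e1 := hD 1 (by norm_num)
    rw [d0] at e0
    rw [d1] at e1
    rw [GA_b0] at b0
    rw [GA_b1] at b1
    rw [GA_b2] at b2
    simp only [map_mul, map_inv] at b0 b1 e0 e1
    set A := f (fa 0) with hA
    set B := f (fb 0) with hB
    set t := f (fa 2) with ht
    have hb1 : f (fb 1) = A := by
      calc f (fb 1) = (f (fb 1) * A⁻¹) * A := by group
        _ = A := by rw [b1, one_mul]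
    have ha1 : f (fa 1) = B := by
      calc f (fa 1) = B * A * B⁻¹ * A⁻¹ *
            (A * B * A⁻¹ * (f (fa 1))⁻¹ * (A * B * A⁻¹ * B⁻¹)⁻¹)⁻¹ * A * B * A⁻¹ := by group
        _ = B := by rw [b0]; group
    have fio : ∀ w, f (io w) = (FreeGroup.lift ![A, B] : F2 →* Q) w := by
      have h : f.comp io = (FreeGroup.lift ![A, B] : F2 →* Q) := by
        apply hom_ext2
        · rw [MonoidHom.comp_apply, io_x, hb1]; simp [gx]
        · rw [MonoidHom.comp_apply, io_y, ha1]; simp [gy]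
      intro w
      exact DFunLike.congr_fun h w
    have g1 : f (io (φ gx)) = t * A * t⁻¹ := by
      calc f (io (φ gx)) = (f (io (φ gx)) * (t * A⁻¹ * t⁻¹)) * (t * A * t⁻¹) := by group
        _ = _ := by rw [e1, one_mul]
    have g2 : f (io (φ gy)) = t * B * t⁻¹ := by
      have h1 : (f (io (φ gy)))⁻¹ = (t * B * t⁻¹)⁻¹ := by
        calc (f (io (φ gy)))⁻¹ = (t * (A * B * A⁻¹) * t⁻¹)⁻¹ *
              (t * (A * B * A⁻¹) * t⁻¹ * (f (io (φ gy)))⁻¹ *
                (t * (B * A * B⁻¹ * A⁻¹) * t⁻¹)) * (t * (B * A * B⁻¹ * A⁻¹) * t⁻¹)⁻¹ := by group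
          _ = _ := by rw [e0]; group
      exact inv_injective h1
    rw [fio] at g1 g2
    have ex : (FreeGroup.lift ![A, B] : F2 →* Q) gx = A := by simp [gx]
    have ey : (FreeGroup.lift ![A, B] : F2 →* Q) gy = B := by simp [gy]
    obtain ⟨F, hF1, hF2⟩ := bundle_lift φ (FreeGroup.lift ![A, B] : F2 →* Q) t (by
      intro w
      have hh : (MulAut.conj t).toMonoidHom.comp (FreeGroup.lift ![A, B] : F2 →* Q) =
          (FreeGroup.lift ![A, B] : F2 →* Q).comp φ.toMonoidHom := by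
        apply hom_ext2
        · simp only [MonoidHom.comp_apply, MulEquiv.toMonoidHom_eq_coe, MonoidHom.coe_coe,
            MulAut.conj_apply]
          rw [ex, g1]
        · simp only [MonoidHom.comp_apply, MulEquiv.toMonoidHom_eq_coe, MonoidHom.coe_coe,
            MulAut.conj_apply]
          rw [ey, g2]
      exact DFunLike.congr_fun hh w)
    refine ⟨F, ?_⟩
    have hc : F.comp θ = f := by
      apply hom6_ext
      · rw [MonoidHom.comp_apply, ta0, hX, hF1, ex]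
      · rw [MonoidHom.comp_apply, tb0, hY, hF1, ey]
      · rw [MonoidHom.comp_apply, ta1, hY, hF1, ey, ha1]
      · rw [MonoidHom.comp_apply, tb1, hX, hF1, ex, hb1]
      · rw [MonoidHom.comp_apply, ta2, hT, hF2]
      · rw [MonoidHom.comp_apply, tb2, map_one, b2]
    intro w
    exact DFunLike.congr_fun hc w

end HG
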