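import Pool.Agent.HG.Heeg

/-!
# The genus two splitting of the bundle with monodromy `psi m` (project HG)
-/

namespace HG

/-- homomorphism from the free group on `a 0, b 0, a 1, b 1` -/
def hom4 {H : Type*} [Group H] (p q r s : H) : FreeGroup (Gen 2) →* H :=
  FreeGroup.lift (Sum.elim ![p, r] ![q, s])

section values
variable {H : Type*} [Group H] (p q r s : H)

theorem hom4_a0 : hom4 p q r s (fa 0) = p := by simp [hom4, fa]
theorem hom4_b0 : hom4 p q r s (fb 0) = q := by simp [hom4, fb]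
theorem hom4_a1 : hom4 p q r s (fa 1) = r := by simp [hom4, fa]
theorem hom4_b1 : hom4 p q r s (fb 1) = s := by simp [hom4, fb]

end values

theorem hom4_ext {H : Type*} [Group H] {F K : FreeGroup (Gen 2) →* H}
    (h1 : F (fa 0) = K (fa 0)) (h2 : F (fb 0) = K (fb 0))
    (h3 : F (fa 1) = K (fa 1)) (h4 : F (fb 1) = K (fb 1)) : F = K := by
  apply FreeGroup.ext_hom
  rintro (i | i) <;> fin_cases i
  · exact h1
  · exact h3
  · exact h2
  · exact h4

theorem surfRel_two : surfRel 2 =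
    fa 0 * fb 0 * (fa 0)⁻¹ * (fb 0)⁻¹ * (fa 1 * fb 1 * (fa 1)⁻¹ * (fb 1)⁻¹) := by
  simp [surfRel, List.ofFn_succ]

/-- automorphism with given images and inverse images -/
def aut4 (F K : FreeGroup (Gen 2) →* FreeGroup (Gen 2)) (h1 : K.comp F = MonoidHom.id _)
    (h2 : F.comp K = MonoidHom.id _) : MulAut (FreeGroup (Gen 2)) :=
  MonoidHom.toMulEquiv F K h1 h2

/-- twist along `a 0`: `b 0 ↦ b 0 * a 0 ^ n` -/
def TA (n : ℤ) : MulAut (FreeGroup (Gen 2)) :=
  aut4 (hom4 (fa 0) (fb 0 * fa 0 ^ n) (fa 1) (fb 1)) (hom4 (fa 0) (fb 0 * fa 0 ^ (-n)) (fa 1) (fb 1))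
    (by apply hom4_ext <;> simp [hom4_a0, hom4_b0, hom4_a1, hom4_b1])
    (by apply hom4_ext <;> simp [hom4_a0, hom4_b0, hom4_a1, hom4_b1])

/-- twist `a 0 ↦ a 0 * b 0` -/
def TB : MulAut (FreeGroup (Gen 2)) :=
  aut4 (hom4 (fa 0 * fb 0) (fb 0) (fa 1) (fb 1)) (hom4 (fa 0 * (fb 0)⁻¹) (fb 0) (fa 1) (fb 1))
    (by apply hom4_ext <;> simp [hom4_a0, hom4_b0, hom4_a1, hom4_b1])
    (by apply hom4_ext <;> simp [hom4_a0, hom4_b0, hom4_a1, hom4_b1])

/-- twist `b 1 ↦ b 1 * a 1` -/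
def TC : MulAut (FreeGroup (Gen 2)) :=
  aut4 (hom4 (fa 0) (fb 0) (fa 1) (fb 1 * fa 1)) (hom4 (fa 0) (fb 0) (fa 1) (fb 1 * (fa 1)⁻¹))
    (by apply hom4_ext <;> simp [hom4_a0, hom4_b0, hom4_a1, hom4_b1])
    (by apply hom4_ext <;> simp [hom4_a0, hom4_b0, hom4_a1, hom4_b1])

/-- inverse twist `a 1 ↦ a 1 * (b 1)⁻¹` -/
def TD : MulAut (FreeGroup (Gen 2)) :=
  aut4 (hom4 (fa 0) (fb 0) (fa 1 * (fb 1)⁻¹) (fb 1)) (hom4 (fa 0) (fb 0) (fa 1 * fb 1) (fb 1))
    (by apply hom4_ext <;> simp [hom4_a0, hom4_b0, hom4_a1, hom4_b1])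
    (by apply hom4_ext <;> simp [hom4_a0, hom4_b0, hom4_a1, hom4_b1])

/-- the curve `b 0⁻¹ a 1 b 1 a 1⁻¹` -/
def dd : FreeGroup (Gen 2) := (fb 0)⁻¹ * fa 1 * fb 1 * (fa 1)⁻¹

/-- twist along the curve `dd` -/
def TE : MulAut (FreeGroup (Gen 2)) :=
  aut4 (hom4 (fa 0 * dd) (dd⁻¹ * fb 0 * dd) (dd⁻¹ * fa 1) (fb 1))
    (hom4 (fa 0 * dd⁻¹) (dd * fb 0 * dd⁻¹) (dd * fa 1) (fb 1))
    (by apply hom4_ext <;> simp [dd, hom4_a0, hom4_b0, hom4_a1, hom4_b1] <;> group)
    (by apply hom4_ext <;> simp [dd, hom4_a0, hom4_b0, hom4_a1, hom4_b1] <;> group)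

theorem TA_a0 (n : ℤ) : TA n (fa 0) = fa 0 := by
  simp [TA, aut4, hom4_a0]
theorem TA_b0 (n : ℤ) : TA n (fb 0) = fb 0 * fa 0 ^ n := by
  simp [TA, aut4, hom4_b0]
theorem TA_a1 (n : ℤ) : TA n (fa 1) = fa 1 := by
  simp [TA, aut4, hom4_a1]
theorem TA_b1 (n : ℤ) : TA n (fb 1) = fb 1 := by
  simp [TA, aut4, hom4_b1]
theorem TB_a0 : TB (fa 0) = fa 0 * fb 0 := by
  simp [TB, aut4, hom4_a0]
theorem TB_b0 : TB (fb 0) = fb 0 := by
  simp [TB, aut4, hom4_b0]
theorem TB_a1 : TB (fa 1) = fa 1 := by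
  simp [TB, aut4, hom4_a1]
theorem TB_b1 : TB (fb 1) = fb 1 := by
  simp [TB, aut4, hom4_b1]
theorem TC_a0 : TC (fa 0) = fa 0 := by
  simp [TC, aut4, hom4_a0]
theorem TC_b0 : TC (fb 0) = fb 0 := by
  simp [TC, aut4, hom4_b0]
theorem TC_a1 : TC (fa 1) = fa 1 := by
  simp [TC, aut4, hom4_a1]
theorem TC_b1 : TC (fb 1) = fb 1 * fa 1 := by
  simp [TC, aut4, hom4_b1]
theorem TD_a0 : TD (fa 0) = fa 0 := by
  simp [TD, aut4, hom4_a0]
theorem TD_b0 : TD (fb 0) = fb 0 := by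
  simp [TD, aut4, hom4_b0]
theorem TD_a1 : TD (fa 1) = fa 1 * (fb 1)⁻¹ := by
  simp [TD, aut4, hom4_a1]
theorem TD_b1 : TD (fb 1) = fb 1 := by
  simp [TD, aut4, hom4_b1]
theorem TE_a0 : TE (fa 0) = fa 0 * dd := by
  simp [TE, aut4, hom4_a0]
theorem TE_b0 : TE (fb 0) = dd⁻¹ * fb 0 * dd := by
  simp [TE, aut4, hom4_b0]
theorem TE_a1 : TE (fa 1) = dd⁻¹ * fa 1 := by
  simp [TE, aut4, hom4_a1]
theorem TE_b1 : TE (fb 1) = fb 1 := by
  simp [TE, aut4, hom4_b1]

/-- fixing the surface relator -/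
def Fix (Φ : MulAut (FreeGroup (Gen 2))) : Prop := Φ (surfRel 2) = surfRel 2

theorem Fix.mul {Φ Ψ : MulAut (FreeGroup (Gen 2))} (h : Fix Φ) (h' : Fix Ψ) : Fix (Φ * Ψ) := by
  rw [Fix, MulAut.mul_apply, h', h]

theorem fix_TA (n : ℤ) : Fix (TA n) := by
  rw [Fix, surfRel_two]
  simp only [map_mul, map_inv, TA_a0, TA_b0, TA_a1, TA_b1]
  group

theorem fix_TB : Fix TB := by
  rw [Fix, surfRel_two]
  simp only [map_mul, map_inv, TB_a0, TB_b0, TB_a1, TB_b1]
  group

theorem fix_TC : Fix TC := by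
  rw [Fix, surfRel_two]
  simp only [map_mul, map_inv, TC_a0, TC_b0, TC_a1, TC_b1]
  group

theorem fix_TD : Fix TD := by
  rw [Fix, surfRel_two]
  simp only [map_mul, map_inv, TD_a0, TD_b0, TD_a1, TD_b1]
  group

theorem fix_TE : Fix TE := by
  rw [Fix, surfRel_two]
  simp only [map_mul, map_inv, TE_a0, TE_b0, TE_a1, TE_b1, dd]
  group

/-- the gluing map of the genus two splitting -/
def glue (m : ℤ) : MulAut (FreeGroup (Gen 2)) :=
  TA (-m) * (TC * (TC * (TE * (TD * (TC * (TC * (TA 1 * (TE * (TB * TA 1)))))))))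

theorem fix_glue (m : ℤ) : Fix (glue m) :=
  (fix_TA _).mul (fix_TC.mul (fix_TC.mul (fix_TE.mul (fix_TD.mul (fix_TC.mul (fix_TC.mul
    ((fix_TA 1).mul (fix_TE.mul (fix_TB.mul (fix_TA 1))))))))))

/-- the conjugating element -/
def gk (m : ℤ) : FreeGroup (Gen 2) :=
  fb 1 * fa 1 * (fb 0 * fa 0 ^ (-m))⁻¹ * fa 1 * fb 1

/-- the word of the attaching curve, up to conjugacy -/
def gw (m : ℤ) : FreeGroup (Gen 2) :=
  fa 1 * fb 1 * fa 1 * fa 0 * (fb 1)⁻¹ * (fa 1)⁻¹ * (fb 0 * fa 0 ^ (-m)) * (fa 1)⁻¹ *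
    (fb 1)⁻¹ * fa 0

theorem glue_b0 (m : ℤ) : glue m (fb 0) = gk m * gw m * (gk m)⁻¹ := by
  simp only [glue, MulAut.mul_apply, map_mul, map_inv, zpow_one, TA_a0, TA_b0, TA_a1, TA_b1,
    TB_a0, TB_b0, TC_a0, TC_b0, TC_a1, TC_b1, TD_a0, TD_b0, TD_a1, TD_b1,
    TE_a0, TE_b0, TE_a1, TE_b1, dd, gk, gw]
  group

theorem bundle_gen {φ : MulAut F2} (K : Subgroup (Bundle φ))
    (hx : SemidirectProduct.inl gx ∈ K) (hy : SemidirectProduct.inl gy ∈ K) (ht : bT φ ∈ K) :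
    K = ⊤ := by
  rw [eq_top_iff]
  intro z _
  have hl : ∀ w : F2, (SemidirectProduct.inl w : Bundle φ) ∈ K := by
    intro w
    have hw : w ∈ Subgroup.closure (Set.range (FreeGroup.of : Fin 2 → F2)) := by
      rw [FreeGroup.closure_range_of]; trivial
    induction hw using Subgroup.closure_induction with
    | mem x hx' =>
      obtain ⟨i, rfl⟩ := hx'
      fin_cases i
      · exact hx
      · exact hy
    | one => rw [map_one]; exact K.one_mem
    | mul x y _ _ hx hy => rw [map_mul]; exact K.mul_mem hx hy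
    | inv x _ hx => rw [map_inv]; exact K.inv_mem hx
  have hr : ∀ n : Multiplicative ℤ, (SemidirectProduct.inr n : Bundle φ) ∈ K := by
    intro n
    have h1 : n = (Multiplicative.ofAdd (1 : ℤ)) ^ (Multiplicative.toAdd n) := by
      rw [← ofAdd_zsmul]; simp
    rw [h1, map_zpow]
    exact K.zpow_mem ht _
  rw [← SemidirectProduct.inl_left_mul_inr_right z]
  exact K.mul_mem (hl _) (hr _)

/-- the genus two splitting -/
theorem heeg_two (m : ℤ) : HeegTorus (Bundle (psi m)) 2 := by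
  have hSX : ((SemidirectProduct.inl gx)⁻¹ * bT (psi m)) * SemidirectProduct.inl gx *
      ((SemidirectProduct.inl gx)⁻¹ * bT (psi m))⁻¹ = SemidirectProduct.inl gy := by
    have h1 := bT_conj (psi m) gx
    calc _ = (SemidirectProduct.inl gx)⁻¹ * (bT (psi m) * SemidirectProduct.inl gx *
          (bT (psi m))⁻¹) * SemidirectProduct.inl gx := by group
      _ = SemidirectProduct.inl gy := by
          rw [h1, psi_x, ← map_inv, ← map_mul, ← map_mul]
          congr 1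
          group
  have hSY : ((SemidirectProduct.inl gx)⁻¹ * bT (psi m)) * SemidirectProduct.inl gy *
      ((SemidirectProduct.inl gx)⁻¹ * bT (psi m))⁻¹ = SemidirectProduct.inl (gx⁻¹ * gy ^ m) := by
    have h1 := bT_conj (psi m) gy
    calc _ = (SemidirectProduct.inl gx)⁻¹ * (bT (psi m) * SemidirectProduct.inl gy *
          (bT (psi m))⁻¹) * SemidirectProduct.inl gx := by group
      _ = _ := by
          rw [h1, psi_y, ← map_inv, ← map_mul, ← map_mul]
          congr 1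
          group
  set X : Bundle (psi m) := SemidirectProduct.inl gx with hX
  set Y : Bundle (psi m) := SemidirectProduct.inl gy with hY
  set S : Bundle (psi m) := X⁻¹ * bT (psi m) with hS
  have hrel : S * S * X * S⁻¹ * X ^ (-m) * S⁻¹ * X = 1 := by
    calc S * S * X * S⁻¹ * X ^ (-m) * S⁻¹ * X
        = (S * (S * X * S⁻¹) * S⁻¹) * (S * X * S⁻¹) ^ (-m) * X := by
          rw [conj_zpow]; group
      _ = 1 := by
          rw [hSX, hSY, hX, hY, ← map_zpow, ← map_mul, ← map_mul]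
          rw [show gx⁻¹ * gy ^ m * gy ^ (-m) * gx = 1 by group, map_one]
  let θ : FreeGroup (Gen 2) →* Bundle (psi m) := hom4 X 1 S 1
  have ta0 : θ (fa 0) = X := hom4_a0 _ _ _ _
  have tb0 : θ (fb 0) = 1 := hom4_b0 _ _ _ _
  have ta1 : θ (fa 1) = S := hom4_a1 _ _ _ _
  have tb1 : θ (fb 1) = 1 := hom4_b1 _ _ _ _
  refine heeg_of (by norm_num) 1 (glue m) 1 1 (by simp) (by rw [fix_glue m]; simp) θ ?_ ?_ ?_ ?_ ?_
  · -- surjective
    rw [← MonoidHom.range_eq_top]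
    have hx : X ∈ θ.range := ⟨fa 0, ta0⟩
    have hs : S ∈ θ.range := ⟨fa 1, ta1⟩
    apply bundle_gen
    · exact hx
    · have := θ.range.mul_mem (θ.range.mul_mem hs hx) (θ.range.inv_mem hs)
      rw [hSX] at this
      exact this
    · have := θ.range.mul_mem hx hs
      rw [hS, mul_inv_cancel_left] at this
      exact this
  · rw [surfRel_two]
    simp only [map_mul, map_inv, ta0, tb0, ta1, tb1]
    group
  · intro i
    fin_cases i
    · simpa using tb0
    · simpa using tb1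
  · intro i hi
    have hi0 : i = 0 := by
      apply Fin.ext
      show i.val = 0
      omega
    rw [hi0, glue_b0, map_mul, map_mul, map_inv]
    have e : θ (gw m) = S * S * X * S⁻¹ * X ^ (-m) * S⁻¹ * X := by
      simp only [gw, map_mul, map_inv, map_zpow, ta0, tb0, ta1, tb1]
      group
    rw [e, hrel]; group
  · intro Q _ f hR hb hΔ
    have b0 : f (fb 0) = 1 := hb 0
    have b1 : f (fb 1) = 1 := hb 1
    have h0 := hΔ 0 (by norm_num)
    rw [glue_b0, map_mul, map_mul, map_inv] at h0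
    have h1 : f (gw m) = 1 := by
      calc f (gw m) = (f (gk m))⁻¹ * (f (gk m) * f (gw m) * (f (gk m))⁻¹) * f (gk m) := by group
        _ = 1 := by rw [h0]; group
    set A := f (fa 0) with hA
    set C := f (fa 1) with hC
    have h2 : C * C * A * C⁻¹ * A ^ (-m) * C⁻¹ * A = 1 := by
      rw [← h1]
      simp only [gw, map_mul, map_inv, map_zpow, b0, b1, ← hA, ← hC]
      group
    have h3 : C * C * A * C⁻¹ = A⁻¹ * C * A ^ m := by
      calc C * C * A * C⁻¹ = (C * C * A * C⁻¹ * A ^ (-m) * C⁻¹ * A) * A⁻¹ * C * A ^ m := by group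
        _ = _ := by rw [h2]; group
    obtain ⟨F, hF1, hF2⟩ := bundle_lift (psi m) (FreeGroup.lift ![A, C * A * C⁻¹] : F2 →* Q)
      (A * C) (by
        intro w
        have hh : (MulAut.conj (A * C)).toMonoidHom.comp (FreeGroup.lift ![A, C * A * C⁻¹] : F2 →* Q) =
            (FreeGroup.lift ![A, C * A * C⁻¹] : F2 →* Q).comp (psi m).toMonoidHom := by
          have ex : (FreeGroup.lift ![A, C * A * C⁻¹] : F2 →* Q) gx = A := by simp [gx]
          have ey : (FreeGroup.lift ![A, C * A * C⁻¹] : F2 →* Q) gy = C * A * C⁻¹ := by simp [gy]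
          apply hom_ext2
          · simp only [MonoidHom.comp_apply, MulEquiv.toMonoidHom_eq_coe, MonoidHom.coe_coe,
              MulAut.conj_apply]
            rw [psi_x, map_mul, map_mul, map_inv, ex, ey]
            group
          · simp only [MonoidHom.comp_apply, MulEquiv.toMonoidHom_eq_coe, MonoidHom.coe_coe,
              MulAut.conj_apply]
            rw [psi_y, map_mul, map_inv, map_zpow, ex, ey, conj_zpow]
            calc A * C * (C * A * C⁻¹) * (A * C)⁻¹ = A * (C * C * A * C⁻¹) * C⁻¹ * A⁻¹ := by group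
              _ = _ := by rw [h3]; group
        exact DFunLike.congr_fun hh w)
    refine ⟨F, ?_⟩
    have hc : F.comp θ = f := by
      have ex : (FreeGroup.lift ![A, C * A * C⁻¹] : F2 →* Q) gx = A := by simp [gx]
      apply hom4_ext
      · rw [MonoidHom.comp_apply, ta0, hX, hF1, ex]
      · rw [MonoidHom.comp_apply, tb0, map_one, b0]
      · rw [MonoidHom.comp_apply, ta1, hS, map_mul, map_inv, hX, hF1, ex, hF2, inv_mul_cancel_left]
      · rw [MonoidHom.comp_apply, tb1, map_one, b1]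
    intro w
    exact DFunLike.congr_fun hc w

end HG
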