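import Pool.Agent.HG.TwoGen

/-!
# Building Heegaard splittings from automorphisms of the free group (project HG)
-/

namespace HG

variable {g : ℕ}

/-- homomorphisms from the surface group -/
theorem surf_lift {H : Type*} [Group H] (f : FreeGroup (Gen g) →* H) (hf : f (surfRel g) = 1) :
    ∃ F : Surf g →* H, ∀ w, F (PresentedGroup.mk _ w) = f w := by
  have h : Subgroup.normalClosure {surfRel g} ≤ f.ker := by
    apply Subgroup.normalClosure_le_normal
    intro w hw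
    rw [Set.mem_singleton_iff] at hw
    subst hw
    exact hf
  exact ⟨QuotientGroup.lift _ f h, fun w => rfl⟩

theorem surf_rel_one : (PresentedGroup.mk {surfRel g} (surfRel g) : Surf g) = 1 :=
  PresentedGroup.one_of_mem (Set.mem_singleton _)

theorem surf_hom_ext {H : Type*} [Group H] {F K : Surf g →* H}
    (h : ∀ w, F (PresentedGroup.mk _ w) = K (PresentedGroup.mk _ w)) : F = K := by
  ext x
  exact h (FreeGroup.of x)

/-- automorphisms of the free group preserving the relator up to conjugacy descend -/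
theorem descend (Φ : MulAut (FreeGroup (Gen g))) (k : FreeGroup (Gen g))
    (h : Φ (surfRel g) = k * surfRel g * k⁻¹) :
    ∃ α : Surf g ≃* Surf g, ∀ w, α (PresentedGroup.mk _ w) = PresentedGroup.mk _ (Φ w) := by
  have hr := surf_rel_one (g := g)
  have hinv : ∀ w, Φ (Φ⁻¹ w) = w := by
    intro w; rw [← MulAut.mul_apply, mul_inv_cancel, MulAut.one_apply]
  have hinv' : ∀ w, Φ⁻¹ (Φ w) = w := by
    intro w; rw [← MulAut.mul_apply, inv_mul_cancel, MulAut.one_apply]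
  obtain ⟨F, hF⟩ := surf_lift ((PresentedGroup.mk {surfRel g}).comp Φ.toMonoidHom) (by
    show PresentedGroup.mk {surfRel g} (Φ (surfRel g)) = 1
    rw [h, map_mul, map_mul, hr, map_inv]; group)
  have h' : Φ⁻¹ (surfRel g) = (Φ⁻¹ k)⁻¹ * surfRel g * Φ⁻¹ k := by
    have h1 : Φ⁻¹ (Φ (surfRel g)) = Φ⁻¹ (k * surfRel g * k⁻¹) := by rw [h]
    rw [hinv', map_mul, map_mul, map_inv] at h1
    calc Φ⁻¹ (surfRel g) = (Φ⁻¹ k)⁻¹ * (Φ⁻¹ k * Φ⁻¹ (surfRel g) * (Φ⁻¹ k)⁻¹) * Φ⁻¹ k := by group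
      _ = _ := by rw [← h1]
  obtain ⟨K, hK⟩ := surf_lift ((PresentedGroup.mk {surfRel g}).comp (Φ⁻¹).toMonoidHom) (by
    show PresentedGroup.mk {surfRel g} (Φ⁻¹ (surfRel g)) = 1
    rw [h', map_mul, map_mul, hr, map_inv]; group)
  have hF' : ∀ w, F (PresentedGroup.mk _ w) = PresentedGroup.mk _ (Φ w) := hF
  have hK' : ∀ w, K (PresentedGroup.mk _ w) = PresentedGroup.mk _ (Φ⁻¹ w) := hK
  refine ⟨MonoidHom.toMulEquiv F K ?_ ?_, hF'⟩
  · apply surf_hom_ext
    intro w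
    rw [MonoidHom.comp_apply, hF', hK', hinv']; rfl
  · apply surf_hom_ext
    intro w
    rw [MonoidHom.comp_apply, hK', hF', hinv]; rfl

/-- Heegaard splittings from two automorphisms of the free group -/
theorem heeg_of {G : Type} [Group G] (hg : 1 ≤ g) (Γ Δ : MulAut (FreeGroup (Gen g)))
    (k l : FreeGroup (Gen g)) (hΓ : Γ (surfRel g) = k * surfRel g * k⁻¹)
    (hΔ : Δ (surfRel g) = l * surfRel g * l⁻¹)
    (θ : FreeGroup (Gen g) →* G) (hsurj : Function.Surjective θ) (hR : θ (surfRel g) = 1)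
    (h1 : ∀ i, θ (Γ (fb i)) = 1) (h2 : ∀ i : Fin g, i.val + 1 < g → θ (Δ (fb i)) = 1)
    (huniv : ∀ (Q : Type) [Group Q] (f : FreeGroup (Gen g) →* Q), f (surfRel g) = 1 →
      (∀ i, f (Γ (fb i)) = 1) → (∀ i : Fin g, i.val + 1 < g → f (Δ (fb i)) = 1) →
      ∃ F : G →* Q, ∀ w, F (θ w) = f w) : HeegTorus G g := by
  refine ⟨hg, ?_⟩
  have hinv : ∀ w, Γ (Γ⁻¹ w) = w := by
    intro w; rw [← MulAut.mul_apply, mul_inv_cancel, MulAut.one_apply]
  have hinv' : ∀ w, Γ⁻¹ (Γ w) = w := by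
    intro w; rw [← MulAut.mul_apply, inv_mul_cancel, MulAut.one_apply]
  have hΓi : Γ⁻¹ (surfRel g) = (Γ⁻¹ k)⁻¹ * surfRel g * Γ⁻¹ k := by
    have h1 : Γ⁻¹ (Γ (surfRel g)) = Γ⁻¹ (k * surfRel g * k⁻¹) := by rw [hΓ]
    rw [hinv', map_mul, map_mul, map_inv] at h1
    calc Γ⁻¹ (surfRel g) = (Γ⁻¹ k)⁻¹ * (Γ⁻¹ k * Γ⁻¹ (surfRel g) * (Γ⁻¹ k)⁻¹) * Γ⁻¹ k := by group
      _ = _ := by rw [← h1]
  obtain ⟨α, hα⟩ := descend (Γ⁻¹ * Δ) (Γ⁻¹ l * (Γ⁻¹ k)⁻¹) (by
    rw [MulAut.mul_apply, hΔ, map_mul, map_mul, hΓi, map_inv]; group)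
  refine ⟨α, ?_⟩
  set S : Set (Surf g) :=
    {w : Surf g | (∃ i : Fin g, w = sb i) ∨ (∃ i : Fin g, i.val + 1 < g ∧ w = α (sb i))} with hS
  -- the map to `G`
  obtain ⟨F0, hF0⟩ := surf_lift (θ.comp Γ.toMonoidHom) (by
    show θ (Γ (surfRel g)) = 1
    rw [hΓ, map_mul, map_mul, hR, map_inv]; group)
  have hF0' : ∀ w, F0 (PresentedGroup.mk _ w) = θ (Γ w) := hF0
  have hker : Subgroup.normalClosure S ≤ F0.ker := by
    apply Subgroup.normalClosure_le_normal
    rintro w (⟨i, rfl⟩ | ⟨i, hi, rfl⟩)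
    · show F0 (sb i) = 1
      rw [sb, hF0', h1]
    · show F0 (α (sb i)) = 1
      rw [sb, hα, hF0', MulAut.mul_apply, hinv]
      exact h2 i hi
  let F1 : Surf g ⧸ Subgroup.normalClosure S →* G := QuotientGroup.lift _ F0 hker
  have hF1 : ∀ w, F1 (QuotientGroup.mk' (Subgroup.normalClosure S) (PresentedGroup.mk _ w)) =
      θ (Γ w) := hF0'
  -- the map from `G`
  let f : FreeGroup (Gen g) →* Surf g ⧸ Subgroup.normalClosure S :=
    ((QuotientGroup.mk' (Subgroup.normalClosure S)).comp (PresentedGroup.mk {surfRel g})).comp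
      (Γ⁻¹).toMonoidHom
  have hf : ∀ w, f w = QuotientGroup.mk' (Subgroup.normalClosure S)
      (PresentedGroup.mk {surfRel g} (Γ⁻¹ w)) := fun w => rfl
  have hone : ∀ w ∈ S, QuotientGroup.mk' (Subgroup.normalClosure S) w = 1 := by
    intro w hw
    rw [← MonoidHom.mem_ker, QuotientGroup.ker_mk']
    exact Subgroup.subset_normalClosure hw
  obtain ⟨F2, hF2⟩ := huniv _ f (by
      have e : PresentedGroup.mk {surfRel g} (Γ⁻¹ (surfRel g)) = 1 := by
        rw [hΓi, map_mul, map_mul, surf_rel_one, map_inv]; group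
      rw [hf, e, map_one])
    (by
      intro i
      rw [hf, hinv']
      exact hone _ (Or.inl ⟨i, rfl⟩))
    (by
      intro i hi
      rw [hf, ← MulAut.mul_apply, ← hα]
      exact hone _ (Or.inr ⟨i, hi, rfl⟩))
  refine ⟨MonoidHom.toMulEquiv F2 F1 ?_ ?_⟩
  · ext z
    obtain ⟨w, rfl⟩ := hsurj z
    rw [MonoidHom.comp_apply, hF2, hf, hF1, hinv]; rfl
  · apply QuotientGroup.monoidHom_ext
    apply surf_hom_ext
    intro w
    rw [MonoidHom.comp_apply, MonoidHom.comp_apply, hF1, hF2, hf, hinv']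
    rfl

/-- a group with a genus `g` splitting is generated by `g` elements -/
theorem genBy_of_heeg {G : Type} [Group G] (h : HeegTorus G g) : GenBy G g := by
  obtain ⟨-, α, ⟨e⟩⟩ := h
  set S : Set (Surf g) :=
    {w : Surf g | (∃ i : Fin g, w = sb i) ∨ (∃ i : Fin g, i.val + 1 < g ∧ w = α (sb i))} with hS
  let π : FreeGroup (Gen g) →* G := (e.symm.toMonoidHom.comp
    (QuotientGroup.mk' (Subgroup.normalClosure S))).comp (PresentedGroup.mk {surfRel g})
  have hπ : Function.Surjective π := by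
    intro z
    obtain ⟨u, hu⟩ := QuotientGroup.mk'_surjective (Subgroup.normalClosure S) (e z)
    obtain ⟨w, hw⟩ := PresentedGroup.mk_surjective _ u
    refine ⟨w, ?_⟩
    show e.symm (QuotientGroup.mk' _ (PresentedGroup.mk _ w)) = z
    rw [hw, hu, e.symm_apply_apply]
  have hb : ∀ i, π (fb i) = 1 := by
    intro i
    show e.symm (QuotientGroup.mk' _ (PresentedGroup.mk _ (fb i))) = 1
    have : QuotientGroup.mk' (Subgroup.normalClosure S) (PresentedGroup.mk _ (fb i)) = 1 := by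
      rw [← MonoidHom.mem_ker, QuotientGroup.ker_mk']
      exact Subgroup.subset_normalClosure (Or.inl ⟨i, rfl⟩)
    rw [this, map_one]
  refine ⟨fun i => π (fa i), ?_⟩
  rw [eq_top_iff]
  intro z _
  obtain ⟨w, rfl⟩ := hπ z
  have hw : w ∈ Subgroup.closure (Set.range (FreeGroup.of : Gen g → FreeGroup (Gen g))) := by
    rw [FreeGroup.closure_range_of]; trivial
  induction hw using Subgroup.closure_induction with
  | mem x hx =>
    obtain ⟨i | i, rfl⟩ := hx
    · exact Subgroup.subset_closure ⟨i, rfl⟩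
    · have h0 : π (FreeGroup.of (Sum.inr i)) = 1 := hb i
      rw [h0]
      exact Subgroup.one_mem _
  | one => rw [map_one]; exact Subgroup.one_mem _
  | mul x y _ _ hx hy => rw [map_mul]; exact Subgroup.mul_mem _ (hx trivial) (hy trivial)
  | inv x _ hx => rw [map_inv]; exact Subgroup.inv_mem _ (hx trivial)

theorem heeg_congr {G G' : Type} [Group G] [Group G'] (e : G ≃* G') (h : HeegTorus G g) :
    HeegTorus G' g := by
  obtain ⟨h1, α, ⟨e'⟩⟩ := h
  exact ⟨h1, α, ⟨e.symm.trans e'⟩⟩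

end HG
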