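import Pool.Agent.HG.Defs

/-!
# The kernel of `Mon → SL₂(ℤ)` consists of inner automorphisms (project HG)
-/

namespace HG

/-- positive pairs -/
inductive Pos : F2 → F2 → Prop
  | base : Pos gx gy
  | left {u v : F2} : Pos u v → Pos u (v * u)
  | right {u v : F2} : Pos u v → Pos (u * v) v

/-- sign automorphism `x ↦ x⁻¹` -/
def sgx : F2 →* F2 := endo gx⁻¹ gy

/-- sign automorphism `y ↦ y⁻¹` -/
def sgy : F2 →* F2 := endo gx gy⁻¹

/-- pairs reachable from positive pairs by symmetries -/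
inductive Good : F2 → F2 → Prop
  | pos {u v : F2} : Pos u v → Good u v
  | sx {p q : F2} : Good p q → Good (sgx p) (sgx q)
  | sy {p q : F2} : Good p q → Good (sgy p) (sgy q)
  | conj (g : F2) {p q : F2} : Good p q → Good (g * p * g⁻¹) (g * q * g⁻¹)
  | inv1 {p q : F2} : Good p q → Good p⁻¹ q
  | swap {p q : F2} : Good p q → Good q p

theorem Good.inv2 {p q : F2} (h : Good p q) : Good p q⁻¹ := (h.swap.inv1).swap

theorem good_of_eq {p q p' q' : F2} (h : Good p q) (hp : p = p') (hq : q = q') : Good p' q' := by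
  subst hp; subst hq; exact h

theorem sgx_x : sgx gx = gx⁻¹ := endo_x _ _
theorem sgx_y : sgx gy = gy := endo_y _ _
theorem sgy_x : sgy gx = gx := endo_x _ _
theorem sgy_y : sgy gy = gy⁻¹ := endo_y _ _

/-- Lemma A -/
theorem pos_A {u v : F2} (h : Pos u v) : Good u (v * u⁻¹) := by
  cases h with
  | base =>
    have h1 : Good gx (gy * gx) := Good.pos (Pos.left Pos.base)
    refine good_of_eq h1.sx.inv1 ?_ ?_
    · simp [sgx_x]
    · simp [sgx_x, sgx_y]
  | left h' => exact good_of_eq (Good.pos h') rfl (by group)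
  | right h' =>
    rename_i w
    have h1 : Good (v * w) w := (Good.pos (Pos.left h')).swap
    refine good_of_eq (h1.conj w).inv2 (by group) (by group)

/-- Lemma B -/
theorem pos_B {u v : F2} (h : Pos u v) : Good (u * v⁻¹) v := by
  cases h with
  | base =>
    have h1 : Good (gx * gy) gy := Good.pos (Pos.right Pos.base)
    refine good_of_eq h1.sy.inv2 ?_ ?_
    · simp [sgy_x, sgy_y]
    · simp [sgy_y]
  | right h' => exact good_of_eq (Good.pos h') (by group) rfl
  | left h' =>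
    rename_i v
    have h1 : Good v (u * v) := (Good.pos (Pos.right h')).swap
    refine good_of_eq (h1.conj v).inv1 (by group) (by group)

/-- closure of good pairs under elementary moves -/
theorem good_moves {p q : F2} (h : Good p q) :
    Good p (q * p) ∧ Good p (q * p⁻¹) ∧ Good (p * q) q ∧ Good (p * q⁻¹) q := by
  induction h with
  | pos h => exact ⟨.pos h.left, pos_A h, .pos h.right, pos_B h⟩
  | sx h ih =>
    obtain ⟨h1, h2, h3, h4⟩ := ih
    exact ⟨good_of_eq h1.sx rfl (by simp), good_of_eq h2.sx rfl (by simp),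
      good_of_eq h3.sx (by simp) rfl, good_of_eq h4.sx (by simp) rfl⟩
  | sy h ih =>
    obtain ⟨h1, h2, h3, h4⟩ := ih
    exact ⟨good_of_eq h1.sy rfl (by simp), good_of_eq h2.sy rfl (by simp),
      good_of_eq h3.sy (by simp) rfl, good_of_eq h4.sy (by simp) rfl⟩
  | conj g h ih =>
    obtain ⟨h1, h2, h3, h4⟩ := ih
    exact ⟨good_of_eq (h1.conj g) rfl (by group), good_of_eq (h2.conj g) rfl (by group),
      good_of_eq (h3.conj g) (by group) rfl, good_of_eq (h4.conj g) (by group) rfl⟩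
  | @inv1 p q h ih =>
    obtain ⟨h1, h2, h3, h4⟩ := ih
    refine ⟨h2.inv1, good_of_eq h1.inv1 rfl (by simp), ?_, ?_⟩
    · exact good_of_eq (h4.conj q⁻¹).inv1 (by group) (by group)
    · exact good_of_eq (h3.conj q).inv1 (by group) (by group)
  | swap h ih =>
    obtain ⟨h1, h2, h3, h4⟩ := ih
    exact ⟨h3.swap, h4.swap, h1.swap, h2.swap⟩

theorem tauA_x : tauA gx = gx := by simp [tauA, endo_x]
theorem tauA_y : tauA gy = gy * gx := by simp [tauA, endo_y]
theorem tauB_x : tauB gx = gx * gy := by simp [tauB, endo_x]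
theorem tauB_y : tauB gy = gy := by simp [tauB, endo_y]
theorem tauA_inv_x : MulEquiv.symm tauA gx = gx := by
  rw [MulEquiv.symm_apply_eq, tauA_x]
theorem tauA_inv_y : MulEquiv.symm tauA gy = gy * gx⁻¹ := by
  rw [MulEquiv.symm_apply_eq, map_mul, map_inv, tauA_x, tauA_y]; group
theorem tauB_inv_x : MulEquiv.symm tauB gx = gx * gy⁻¹ := by
  rw [MulEquiv.symm_apply_eq, map_mul, map_inv, tauB_x, tauB_y]; group
theorem tauB_inv_y : MulEquiv.symm tauB gy = gy := by
  rw [MulEquiv.symm_apply_eq, tauB_y]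

/-- every element of `Mon` gives a good pair -/
theorem good_of_mon {φ : MulAut F2} (h : φ ∈ Mon) : Good (φ gx) (φ gy) := by
  induction h using Subgroup.closure_induction_right with
  | one => exact Good.pos Pos.base
  | mul_right φ _ y hy ih =>
    rcases hy with rfl | hy
    · exact good_of_eq (good_moves ih).1 (by simp [tauA_x]) (by simp [tauA_y])
    · rw [Set.mem_singleton_iff] at hy
      subst hy
      exact good_of_eq (good_moves ih).2.2.1 (by simp [tauB_x]) (by simp [tauB_y])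
  | mul_inv_cancel φ _ y hy ih =>
    rcases hy with rfl | hy
    · exact good_of_eq (good_moves ih).2.1 (by simp [tauA_inv_x]) (by simp [tauA_inv_y])
    · rw [Set.mem_singleton_iff] at hy
      subst hy
      exact good_of_eq (good_moves ih).2.2.2 (by simp [tauB_inv_x]) (by simp [tauB_inv_y])

/-- integer exponent sums -/
def es (i : Fin 2) (w : F2) : ℤ := (esum i w).toAdd

theorem es_mul (i : Fin 2) (u v : F2) : es i (u * v) = es i u + es i v := by
  simp [es]

theorem es_inv (i : Fin 2) (u : F2) : es i u⁻¹ = - es i u := by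
  simp [es]

theorem esum_0y : esum 0 gy = 1 := by simp [esum, gy]
theorem esum_1x : esum 1 gx = 1 := by simp [esum, gx]

theorem es_0x : es 0 gx = 1 := by simp [es, esum, gx]
theorem es_0y : es 0 gy = 0 := by simp [es, esum, gy]
theorem es_1x : es 1 gx = 0 := by simp [es, esum, gx]
theorem es_1y : es 1 gy = 1 := by simp [es, esum, gy]

/-- sum of absolute values of the four exponent sums -/
def tot (p q : F2) : ℤ := |es 0 p| + |es 1 p| + |es 0 q| + |es 1 q|

theorem es_sgx0 (w : F2) : es 0 (sgx w) = - es 0 w := by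
  have h : (esum 0).comp sgx = (esum 0)⁻¹ := by
    apply hom_ext2
    · simp [sgx_x]
    · simp [sgx_y, esum_0y]
  have := DFunLike.congr_fun h w
  simp only [MonoidHom.comp_apply, MonoidHom.inv_apply] at this
  simp [es, this]

theorem es_sgx1 (w : F2) : es 1 (sgx w) = es 1 w := by
  have h : (esum 1).comp sgx = esum 1 := by
    apply hom_ext2
    · simp [sgx_x, esum_1x]
    · simp [sgx_y]
  have := DFunLike.congr_fun h w
  simp only [MonoidHom.comp_apply] at this
  simp [es, this]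

theorem es_sgy0 (w : F2) : es 0 (sgy w) = es 0 w := by
  have h : (esum 0).comp sgy = esum 0 := by
    apply hom_ext2
    · simp [sgy_x]
    · simp [sgy_y, esum_0y]
  have := DFunLike.congr_fun h w
  simp only [MonoidHom.comp_apply] at this
  simp [es, this]

theorem es_sgy1 (w : F2) : es 1 (sgy w) = - es 1 w := by
  have h : (esum 1).comp sgy = (esum 1)⁻¹ := by
    apply hom_ext2
    · simp [sgy_x, esum_1x]
    · simp [sgy_y]
  have := DFunLike.congr_fun h w
  simp only [MonoidHom.comp_apply, MonoidHom.inv_apply] at this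
  simp [es, this]

/-- positivity of positive pairs -/
theorem pos_nonneg {u v : F2} (h : Pos u v) :
    0 ≤ es 0 u ∧ 0 ≤ es 1 u ∧ 0 ≤ es 0 v ∧ 0 ≤ es 1 v ∧
      1 ≤ es 0 u + es 1 u ∧ 1 ≤ es 0 v + es 1 v := by
  induction h with
  | base => simp [es_0x, es_0y, es_1x, es_1y]
  | left h ih =>
    simp only [es_mul]
    omega
  | right h ih =>
    simp only [es_mul]
    omega

theorem pos_tot {u v : F2} (h : Pos u v) (ht : tot u v = 2) : u = gx ∧ v = gy := by
  have h0 := pos_nonneg h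
  obtain ⟨a1, a2, a3, a4, a5, a6⟩ := h0
  rw [tot, abs_of_nonneg a1, abs_of_nonneg a2, abs_of_nonneg a3, abs_of_nonneg a4] at ht
  cases h with
  | base => exact ⟨rfl, rfl⟩
  | left h' =>
    exfalso
    have h1 := pos_nonneg h'
    simp only [es_mul] at *
    omega
  | right h' =>
    exfalso
    have h1 := pos_nonneg h'
    simp only [es_mul] at *
    omega

/-- signed generators -/
def SG (s t : F2) : Prop :=
  ((s = gx ∨ s = gx⁻¹) ∧ (t = gy ∨ t = gy⁻¹)) ∨ ((s = gy ∨ s = gy⁻¹) ∧ (t = gx ∨ t = gx⁻¹))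

theorem good_tot {p q : F2} (h : Good p q) (ht : tot p q = 2) :
    ∃ g s t : F2, SG s t ∧ p = g * s * g⁻¹ ∧ q = g * t * g⁻¹ := by
  induction h with
  | pos h =>
    obtain ⟨rfl, rfl⟩ := pos_tot h ht
    exact ⟨1, gx, gy, Or.inl ⟨Or.inl rfl, Or.inl rfl⟩, by simp, by simp⟩
  | sx h ih =>
    rw [tot, es_sgx0, es_sgx1, es_sgx0, es_sgx1, abs_neg, abs_neg] at ht
    obtain ⟨g, s, t, h1, rfl, rfl⟩ := ih ht
    refine ⟨sgx g, sgx s, sgx t, ?_, by simp, by simp⟩
    rcases h1 with ⟨rfl | rfl, rfl | rfl⟩ | ⟨rfl | rfl, rfl | rfl⟩ <;>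
      simp [SG, sgx_x, sgx_y]
  | sy h ih =>
    rw [tot, es_sgy0, es_sgy1, es_sgy0, es_sgy1, abs_neg, abs_neg] at ht
    obtain ⟨g, s, t, h1, rfl, rfl⟩ := ih ht
    refine ⟨sgy g, sgy s, sgy t, ?_, by simp, by simp⟩
    rcases h1 with ⟨rfl | rfl, rfl | rfl⟩ | ⟨rfl | rfl, rfl | rfl⟩ <;>
      simp [SG, sgy_x, sgy_y]
  | conj k h ih =>
    have h2 : ∀ (i : Fin 2) (w : F2), es i (k * w * k⁻¹) = es i w := by
      intro i w; rw [es_mul, es_mul, es_inv]; ring
    rw [tot, h2, h2, h2, h2] at ht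
    obtain ⟨g, s, t, h1, rfl, rfl⟩ := ih ht
    exact ⟨k * g, s, t, h1, by group, by group⟩
  | inv1 h ih =>
    rw [tot, es_inv, es_inv, abs_neg, abs_neg] at ht
    obtain ⟨g, s, t, h1, rfl, rfl⟩ := ih ht
    refine ⟨g, s⁻¹, t, ?_, by group, rfl⟩
    rcases h1 with ⟨rfl | rfl, rfl | rfl⟩ | ⟨rfl | rfl, rfl | rfl⟩ <;>
      simp [SG]
  | @swap p q h ih =>
    have ht' : tot p q = 2 := by
      rw [← ht, tot, tot]; ring
    obtain ⟨g, s, t, h1, rfl, rfl⟩ := ih ht'
    refine ⟨g, t, s, ?_, rfl, rfl⟩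
    rcases h1 with ⟨rfl | rfl, rfl | rfl⟩ | ⟨rfl | rfl, rfl | rfl⟩ <;>
      simp [SG]

/-- an element of `Mon` acting trivially on the abelianisation is inner -/
theorem inner_of_mat {φ : MulAut F2} (h : φ ∈ Mon) (h00 : es 0 (φ gx) = 1) (h10 : es 1 (φ gx) = 0)
    (h01 : es 0 (φ gy) = 0) (h11 : es 1 (φ gy) = 1) : ∃ g : F2, φ = MulAut.conj g := by
  have ht : tot (φ gx) (φ gy) = 2 := by
    rw [tot, h00, h10, h01, h11]; norm_num
  obtain ⟨g, s, t, h1, h2, h3⟩ := good_tot (good_of_mon h) ht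
  rw [h2, es_mul, es_mul, es_inv] at h00 h10
  rw [h3, es_mul, es_mul, es_inv] at h01 h11
  have hs : s = gx ∧ t = gy := by
    rcases h1 with ⟨rfl | rfl, rfl | rfl⟩ | ⟨rfl | rfl, rfl | rfl⟩ <;>
      simp only [es_inv, es_0x, es_0y, es_1x, es_1y] at h00 h10 h01 h11 <;> first | (exfalso; omega) | skip
    exact ⟨rfl, rfl⟩
  obtain ⟨rfl, rfl⟩ := hs
  refine ⟨g, ?_⟩
  have : (φ : F2 →* F2) = (MulAut.conj g : MulAut F2) := by
    apply hom_ext2
    · simpa using h2
    · simpa using h3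
  ext w
  exact DFunLike.congr_fun this w

end HG
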