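import Pool.Agent.HG.Bundle

/-!
# Two-generator bundle groups (project HG)
-/

namespace HG

open SemidirectProduct

theorem mat_inv_eq {φ : MulAut F2} (hφ : φ ∈ Mon) :
    mat φ⁻¹ = !![mat φ 1 1, - mat φ 0 1; - mat φ 1 0, mat φ 0 0] := by
  have hdet := det_mat hφ
  have h1 : mat φ * (mat φ).adjugate = 1 := by rw [Matrix.mul_adjugate, hdet, one_smul]
  calc mat φ⁻¹ = mat φ⁻¹ * (mat φ * (mat φ).adjugate) := by rw [h1, mul_one]
    _ = (mat φ).adjugate := by rw [← mul_assoc, mat_inv_mul, one_mul]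
    _ = _ := by rw [Matrix.adjugate_fin_two]

theorem dvA_inv {φ : MulAut F2} (hφ : φ ∈ Mon) (p q : ℤ) : dvA φ⁻¹ p q = - dvA φ p q := by
  rw [dvA, mat_inv_eq hφ, dvA]
  simp
  ring

theorem trace_inv {φ : MulAut F2} (hφ : φ ∈ Mon) : (mat φ⁻¹).trace = (mat φ).trace := by
  rw [mat_inv_eq hφ, Matrix.trace_fin_two, Matrix.trace_fin_two]
  simp
  ring

/-- normal form: if `det (v, A v)` is `1` or `-1` then the bundle group is that of `psi` -/
theorem normal_form {φ : MulAut F2} (hφ : φ ∈ Mon) {p q : ℤ} (h : IsUnit (dvA φ p q)) :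
    Nonempty (Bundle φ ≃* Bundle (psi (mat φ).trace)) := by
  rcases Int.isUnit_iff.1 h with h1 | h1
  · exact normal_form_one hφ h1
  · obtain ⟨e⟩ := bundle_inv φ
    have h2 : dvA φ⁻¹ p q = 1 := by rw [dvA_inv hφ, h1]; norm_num
    obtain ⟨e'⟩ := normal_form_one (Mon.inv_mem hφ) h2
    rw [trace_inv hφ] at e'
    exact ⟨e.trans e'⟩

/-- Euclid's algorithm for generating pairs -/
theorem euclid_gen {G : Type} [Group G] (π : G →* Multiplicative ℤ) :
    ∀ (n : ℕ) (g h : G), (Multiplicative.toAdd (π g)).natAbs + (Multiplicative.toAdd (π h)).natAbs ≤ n →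
      Subgroup.closure {g, h} = ⊤ → ∃ g' h' : G, Subgroup.closure {g', h'} = ⊤ ∧ π h' = 1 := by
  have swp : ∀ g h : G, Subgroup.closure {g, h} = ⊤ → Subgroup.closure {h, g} = ⊤ := by
    intro g h hh; rw [Set.pair_comm]; exact hh
  have mv : ∀ g h : G, Subgroup.closure {g, h} = ⊤ → Subgroup.closure {g, h * g} = ⊤ := by
    intro g h hh
    rw [eq_top_iff, ← hh, Subgroup.closure_le]
    have h1 : g ∈ Subgroup.closure {g, h * g} := Subgroup.subset_closure (by simp)
    have h2 : h * g ∈ Subgroup.closure {g, h * g} := Subgroup.subset_closure (by simp)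
    intro z hz
    rcases hz with rfl | hz
    · exact h1
    · rw [Set.mem_singleton_iff] at hz
      subst hz
      have := Subgroup.mul_mem _ h2 (Subgroup.inv_mem _ h1)
      rwa [mul_assoc, mul_inv_cancel, mul_one] at this
  have mv' : ∀ g h : G, Subgroup.closure {g, h} = ⊤ → Subgroup.closure {g, h * g⁻¹} = ⊤ := by
    intro g h hh
    rw [eq_top_iff, ← hh, Subgroup.closure_le]
    have h1 : g ∈ Subgroup.closure {g, h * g⁻¹} := Subgroup.subset_closure (by simp)
    have h2 : h * g⁻¹ ∈ Subgroup.closure {g, h * g⁻¹} := Subgroup.subset_closure (by simp)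
    intro z hz
    rcases hz with rfl | hz
    · exact h1
    · rw [Set.mem_singleton_iff] at hz
      subst hz
      have := Subgroup.mul_mem _ h2 h1
      rwa [mul_assoc, inv_mul_cancel, mul_one] at this
  intro n
  induction n using Nat.strong_induction_on with
  | _ n ih =>
    intro g h hn hh
    by_cases hg0 : Multiplicative.toAdd (π g) = 0
    · exact ⟨h, g, swp _ _ hh, by rw [← toAdd_eq_zero]; exact hg0⟩
    by_cases hh0 : Multiplicative.toAdd (π h) = 0
    · exact ⟨g, h, hh, by rw [← toAdd_eq_zero]; exact hh0⟩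
    -- reduce the larger one by the smaller one
    have red : ∀ g h : G, Subgroup.closure {g, h} = ⊤ → Multiplicative.toAdd (π g) ≠ 0 →
        (Multiplicative.toAdd (π g)).natAbs ≤ (Multiplicative.toAdd (π h)).natAbs →
        (Multiplicative.toAdd (π g)).natAbs + (Multiplicative.toAdd (π h)).natAbs ≤ n →
        ∃ g' h' : G, Subgroup.closure {g', h'} = ⊤ ∧ π h' = 1 := by
      intro g h hh hg0 hle hn
      have e1 : Multiplicative.toAdd (π (h * g)) =
          Multiplicative.toAdd (π h) + Multiplicative.toAdd (π g) := by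
        rw [map_mul, toAdd_mul]
      have e2 : Multiplicative.toAdd (π (h * g⁻¹)) =
          Multiplicative.toAdd (π h) - Multiplicative.toAdd (π g) := by
        rw [map_mul, map_inv, toAdd_mul, toAdd_inv]; ring
      by_cases hs : (Multiplicative.toAdd (π h) + Multiplicative.toAdd (π g)).natAbs <
          (Multiplicative.toAdd (π h)).natAbs
      · refine ih ((Multiplicative.toAdd (π g)).natAbs +
          (Multiplicative.toAdd (π (h * g))).natAbs) ?_ g (h * g) le_rfl (mv _ _ hh)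
        rw [e1]; omega
      · refine ih ((Multiplicative.toAdd (π g)).natAbs +
          (Multiplicative.toAdd (π (h * g⁻¹))).natAbs) ?_ g (h * g⁻¹) le_rfl (mv' _ _ hh)
        rw [e2]; omega
    rcases le_total (Multiplicative.toAdd (π g)).natAbs (Multiplicative.toAdd (π h)).natAbs with h1 | h1
    · exact red g h hh hg0 h1 hn
    · exact red h g (swp _ _ hh) hh0 h1 (by omega)

theorem genBy_two {G : Type} [Group G] (h : GenBy G 2) :
    ∃ g k : G, Subgroup.closure {g, k} = ⊤ := by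
  obtain ⟨f, hf⟩ := h
  refine ⟨f 0, f 1, ?_⟩
  rw [← hf]
  congr 1
  ext z
  simp only [Set.mem_insert_iff, Set.mem_singleton_iff, Set.mem_range]
  constructor
  · rintro (rfl | rfl)
    · exact ⟨0, rfl⟩
    · exact ⟨1, rfl⟩
  · rintro ⟨i, rfl⟩
    fin_cases i
    · left; rfl
    · right; rfl

/-- words whose class lies in the lattice spanned by `v` and `A v` -/
def Lat (φ : MulAut F2) (p q : ℤ) (w : F2) : Prop :=
  ∃ m n : ℤ, es 0 w = m * p + n * (mat φ 0 0 * p + mat φ 0 1 * q) ∧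
    es 1 w = m * q + n * (mat φ 1 0 * p + mat φ 1 1 * q)

theorem es_mat (φ : MulAut F2) (i : Fin 2) (w : F2) :
    es i (φ w) = mat φ i 0 * es 0 w + mat φ i 1 * es 1 w := by
  rw [es_apply]
  fin_cases i <;> rfl

theorem Lat.map {φ : MulAut F2} (hφ : φ ∈ Mon) {p q : ℤ} {w : F2} (h : Lat φ p q w) :
    Lat φ p q (φ w) := by
  obtain ⟨m, n, h0, h1⟩ := h
  have hdet := det_mat hφ
  rw [Matrix.det_fin_two] at hdet
  refine ⟨-n, m + n * (mat φ 0 0 + mat φ 1 1), ?_, ?_⟩
  · rw [es_mat, h0, h1]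
    linear_combination (-n * p) * hdet
  · rw [es_mat, h0, h1]
    linear_combination (-n * q) * hdet

theorem Lat.map_inv {φ : MulAut F2} (hφ : φ ∈ Mon) {p q : ℤ} {w : F2} (h : Lat φ p q w) :
    Lat φ p q (φ⁻¹ w) := by
  obtain ⟨m, n, h0, h1⟩ := h
  have hdet := det_mat hφ
  rw [Matrix.det_fin_two] at hdet
  refine ⟨n + m * (mat φ 0 0 + mat φ 1 1), -m, ?_, ?_⟩
  · rw [es_mat, h0, h1, mat_inv_eq hφ]
    simp
    linear_combination (n * p) * hdet
  · rw [es_mat, h0, h1, mat_inv_eq hφ]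
    simp
    linear_combination (n * q) * hdet

theorem Lat.zpow {φ : MulAut F2} (hφ : φ ∈ Mon) {p q : ℤ} (k : ℤ) :
    ∀ {w : F2}, Lat φ p q w → Lat φ p q ((φ ^ k) w) := by
  induction k using Int.induction_on with
  | zero => intro w h; simpa using h
  | succ n ih => intro w h; rw [zpow_add_one, MulAut.mul_apply]; exact ih (h.map hφ)
  | pred n ih => intro w h; rw [zpow_sub_one, MulAut.mul_apply]; exact ih (h.map_inv hφ)

theorem Lat.one {φ : MulAut F2} {p q : ℤ} : Lat φ p q 1 :=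
  ⟨0, 0, by simp [es], by simp [es]⟩

theorem Lat.mul {φ : MulAut F2} {p q : ℤ} {u w : F2} (hu : Lat φ p q u) (hw : Lat φ p q w) :
    Lat φ p q (u * w) := by
  obtain ⟨m, n, h0, h1⟩ := hu
  obtain ⟨m', n', h0', h1'⟩ := hw
  exact ⟨m + m', n + n', by rw [es_mul, h0, h0']; ring, by rw [es_mul, h1, h1']; ring⟩

theorem Lat.inv {φ : MulAut F2} {p q : ℤ} {u : F2} (hu : Lat φ p q u) :
    Lat φ p q u⁻¹ := by
  obtain ⟨m, n, h0, h1⟩ := hu
  exact ⟨-m, -n, by rw [es_inv, h0]; ring, by rw [es_inv, h1]; ring⟩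

theorem Lat.conj {φ : MulAut F2} {p q : ℤ} {u : F2} (g : F2) (hu : Lat φ p q u) :
    Lat φ p q (g * u * g⁻¹) := by
  obtain ⟨m, n, h0, h1⟩ := hu
  exact ⟨m, n, by rw [es_mul, es_mul, es_inv, h0]; ring, by rw [es_mul, es_mul, es_inv, h1]; ring⟩

/-- the normal subgroup of elements of the fibre group whose class lies in the lattice -/
def LatSub (φ : MulAut F2) (p q : ℤ) : Subgroup (Bundle φ) where
  carrier := {z | ∃ w, z = inl w ∧ Lat φ p q w}
  one_mem' := ⟨1, by simp, Lat.one⟩
  mul_mem' := by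
    rintro _ _ ⟨u, rfl, hu⟩ ⟨w, rfl, hw⟩
    exact ⟨u * w, by simp, hu.mul hw⟩
  inv_mem' := by
    rintro _ ⟨u, rfl, hu⟩
    exact ⟨u⁻¹, by simp, hu.inv⟩

theorem latSub_normal {φ : MulAut F2} (hφ : φ ∈ Mon) (p q : ℤ) : (LatSub φ p q).Normal := by
  constructor
  rintro _ ⟨w, rfl, hw⟩ z
  refine ⟨z.left * (φ ^ (Multiplicative.toAdd z.right)) w * z.left⁻¹, ?_, (hw.zpow hφ _).conj _⟩
  have hz : z = inl z.left * inr z.right := (inl_left_mul_inr_right z).symm
  have h := SemidirectProduct.inl_aut (φ := zpowersHom (MulAut F2) φ) z.right w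
  rw [zpowersHom_apply] at h
  rw [map_mul, map_mul, h]
  conv_lhs => rw [hz]
  simp only [map_inv]
  group

/-- a two-generator bundle group has a vector with `det (v, A v)` a unit -/
theorem unit_of_genBy_two {φ : MulAut F2} (hφ : φ ∈ Mon) (h : GenBy (Bundle φ) 2) :
    ∃ p q : ℤ, IsUnit (dvA φ p q) := by
  obtain ⟨g₀, k₀, h0⟩ := genBy_two h
  obtain ⟨g, k, hgk, hk⟩ := euclid_gen (rightHom : Bundle φ →* Multiplicative ℤ) _ g₀ k₀ le_rfl h0
  have hk' : k = inl k.left := by
    apply SemidirectProduct.ext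
    · simp
    · simpa using hk
  set v := k.left with hv
  have hN := latSub_normal hφ (es 0 v) (es 1 v)
  have hkN : k ∈ LatSub φ (es 0 v) (es 1 v) :=
    ⟨v, hk', 1, 0, by ring, by ring⟩
  have htop : Subgroup.zpowers g ⊔ LatSub φ (es 0 v) (es 1 v) = ⊤ := by
    rw [eq_top_iff, ← hgk, Subgroup.closure_le]
    intro z hz
    rcases hz with rfl | hz
    · exact (le_sup_left : Subgroup.zpowers z ≤ _) (Subgroup.mem_zpowers z)
    · rw [Set.mem_singleton_iff] at hz
      subst hz
      exact (le_sup_right : LatSub φ (es 0 v) (es 1 v) ≤ _) hkN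
  have hgr : g.right ≠ 1 := by
    intro hg
    have h1 : Subgroup.closure {g, k} ≤ (rightHom : Bundle φ →* Multiplicative ℤ).ker := by
      rw [Subgroup.closure_le]
      intro z hz
      rcases hz with rfl | hz
      · exact hg
      · rw [Set.mem_singleton_iff] at hz
        subst hz
        exact hk
    rw [hgk] at h1
    have h2 : bT φ ∈ (rightHom : Bundle φ →* Multiplicative ℤ).ker := h1 trivial
    rw [MonoidHom.mem_ker, bT, rightHom_inr] at h2
    have h3 := congrArg Multiplicative.toAdd h2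
    simp at h3
  have hall : ∀ w : F2, Lat φ (es 0 v) (es 1 v) w := by
    intro w
    have h1 : (inl w : Bundle φ) ∈ Subgroup.zpowers g ⊔ LatSub φ (es 0 v) (es 1 v) := by
      rw [htop]; trivial
    rw [← SetLike.mem_coe, Subgroup.mul_normal, Set.mem_mul] at h1
    obtain ⟨a, ha, b, ⟨u, rfl, hu⟩, hab⟩ := h1
    obtain ⟨n, rfl⟩ := Subgroup.mem_zpowers_iff.1 ha
    have h2 := congrArg (rightHom : Bundle φ →* Multiplicative ℤ) hab
    rw [map_mul, map_zpow, rightHom_inl, rightHom_inl, mul_one] at h2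
    have h3 := congrArg Multiplicative.toAdd h2
    rw [toAdd_zpow, toAdd_one, smul_eq_mul, mul_eq_zero] at h3
    rcases h3 with h3 | h3
    · subst h3
      rw [zpow_zero, one_mul] at hab
      have := inl_injective hab
      rw [← this]
      exact hu
    · exfalso
      apply hgr
      rw [← toAdd_eq_zero]
      exact h3
  obtain ⟨m, n, h1, h2⟩ := hall gx
  obtain ⟨m', n', h3, h4⟩ := hall gy
  rw [es_0x] at h1
  rw [es_1x] at h2
  rw [es_0y] at h3
  rw [es_1y] at h4
  refine ⟨es 0 v, es 1 v, ?_⟩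
  rw [isUnit_iff_dvd_one]
  refine ⟨m * n' - n * m', ?_⟩
  rw [dvA]
  set a := mat φ 0 0
  set b := mat φ 0 1
  set c := mat φ 1 0
  set d := mat φ 1 1
  set p := es 0 v
  set q := es 1 v
  have e : (1 : ℤ) * 1 - 0 * 0 = (p * (c * p + d * q) - q * (a * p + b * q)) * (m * n' - n * m') := by
    calc (1 : ℤ) * 1 - 0 * 0 = (m * p + n * (a * p + b * q)) * (m' * q + n' * (c * p + d * q)) -
        (m * q + n * (c * p + d * q)) * (m' * p + n' * (a * p + b * q)) := by
          rw [← h1, ← h2, ← h3, ← h4]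
      _ = _ := by ring
  linarith

/-- a bundle group is not generated by fewer than two elements -/
theorem not_genBy_lt_two (φ : MulAut F2) {n : ℕ} (hn : n < 2) : ¬ GenBy (Bundle φ) n := by
  rintro ⟨f, hf⟩
  have hc : ∃ g : Bundle φ, Set.range f ⊆ {g} := by
    interval_cases n
    · exact ⟨1, by rintro _ ⟨i, rfl⟩; exact i.elim0⟩
    · refine ⟨f 0, ?_⟩
      rintro _ ⟨i, rfl⟩
      rw [Fin.eq_zero i]; rfl
  obtain ⟨g, hg⟩ := hc
  have htop : Subgroup.closure {g} = ⊤ := by
    rw [eq_top_iff, ← hf]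
    exact Subgroup.closure_mono hg
  have hx : (inl gx : Bundle φ) ∈ Subgroup.zpowers g := by
    rw [Subgroup.zpowers_eq_closure, htop]; trivial
  have hy : (inl gy : Bundle φ) ∈ Subgroup.zpowers g := by
    rw [Subgroup.zpowers_eq_closure, htop]; trivial
  obtain ⟨m, hm⟩ := Subgroup.mem_zpowers_iff.1 hx
  obtain ⟨n, hn⟩ := Subgroup.mem_zpowers_iff.1 hy
  have h1 : (inl (gx * gy) : Bundle φ) = inl (gy * gx) := by
    rw [map_mul, map_mul, ← hm, ← hn, ← zpow_add, ← zpow_add, add_comm]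
  have h2 : gx * gy = gy * gx := inl_injective h1
  revert h2
  rw [gx, gy]
  decide

end HG
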